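import Mathlib
import Pool.Agent.R972.PC.Defs

/-!
# Selection rules on `{0, …, b-1}` driven by one uniform variable

A rule picks, from a probability vector `w` on `{0, …, b-1}` and a uniform variable, an index with
law `w`, so that for two vectors the expected discrepancy of the two indices is controlled.
-/

set_option autoImplicit false

open MeasureTheory Set
open scoped NNReal ENNReal

namespace Pool.Agent.K1H26.PC

open Pool.Agent.R972.PC

instance leb_prob : IsProbabilityMeasure leb := by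
  refine ⟨?_⟩
  unfold leb
  rw [Measure.restrict_apply_univ, Real.volume_Icc]
  simp

/-- `w` is a probability vector on `{0, …, b-1}`. -/
structure IsPV (b : ℕ) (w : ℕ → ℝ) : Prop where
  nonneg : ∀ c, 0 ≤ w c
  sum : ∑ c ∈ Finset.range b, w c = 1

/-- A selection rule. -/
structure Rule (b : ℕ) (J : Finset ℕ) (A : ℕ → Finset ℕ) (κ : ℕ → ℕ → ℝ≥0∞) where
  S : (ℕ → ℝ) → ℝ → ℕ
  lt : ∀ w u, S w u < b
  meas : Measurable (fun p : (ℕ → ℝ) × ℝ => S p.1 p.2)
  law : ∀ w, IsPV b w → ∀ c < b, leb {u | S w u = c} = ENNReal.ofReal (w c)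
  cost : ∀ w w', IsPV b w → IsPV b w' → ∫⁻ u, κ (S w u) (S w' u) ∂leb ≤
    ∑ j ∈ J, ENNReal.ofReal |∑ c ∈ A j, w c - ∑ c ∈ A j, w' c|

/-- cumulative sums -/
noncomputable def cum (w : ℕ → ℝ) (j : ℕ) : ℝ := ∑ c ∈ Finset.range j, w c

lemma cum_mono {w : ℕ → ℝ} (h : ∀ c, 0 ≤ w c) : Monotone (cum w) := by
  intro i j hij
  unfold cum
  exact Finset.sum_le_sum_of_subset_of_nonneg (Finset.range_mono hij) fun _ _ _ => h _

lemma cum_zero (w : ℕ → ℝ) : cum w 0 = 0 := by simp [cum]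

lemma cum_succ (w : ℕ → ℝ) (j : ℕ) : cum w (j + 1) = cum w j + w j := by
  simp [cum, Finset.sum_range_succ]

lemma measurable_cum (j : ℕ) : Measurable (fun w : ℕ → ℝ => cum w j) := by
  unfold cum
  fun_prop

/-- the quantile selection -/
noncomputable def qS (b : ℕ) (w : ℕ → ℝ) (u : ℝ) : ℕ :=
  by classical exact Nat.findGreatest (fun j => ∀ i ≤ j, cum w i ≤ u ∨ i = 0) (b - 1)

lemma qS_lt {b : ℕ} (hb : 0 < b) (w : ℕ → ℝ) (u : ℝ) : qS b w u < b := by
  classical
  have := Nat.findGreatest_le (P := fun j => ∀ i ≤ j, cum w i ≤ u ∨ i = 0) (b - 1)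
  unfold qS
  omega

lemma le_qS_iff {b j : ℕ} (hj : j < b) (w : ℕ → ℝ) (u : ℝ) :
    j ≤ qS b w u ↔ ∀ i ≤ j, cum w i ≤ u ∨ i = 0 := by
  classical
  unfold qS
  constructor
  · intro h i hi
    have h0 : (fun j => ∀ i ≤ j, cum w i ≤ u ∨ i = 0)
        (Nat.findGreatest (fun j => ∀ i ≤ j, cum w i ≤ u ∨ i = 0) (b - 1)) := by
      refine Nat.findGreatest_spec (P := fun j => ∀ i ≤ j, cum w i ≤ u ∨ i = 0) (m := 0)
        (Nat.zero_le _) ?_
      intro i hi
      right
      omega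
    exact h0 i (hi.trans h)
  · intro h
    exact Nat.le_findGreatest (by omega) h

lemma le_qS_iff' {b j : ℕ} (hj : j < b) {w : ℕ → ℝ} (hw : ∀ c, 0 ≤ w c) {u : ℝ} (hu : 0 ≤ u) :
    j ≤ qS b w u ↔ cum w j ≤ u := by
  rw [le_qS_iff hj]
  constructor
  · intro h
    rcases h j le_rfl with h | h
    · exact h
    · subst h
      rw [cum_zero]
      exact hu
  · intro h i hi
    left
    exact (cum_mono hw hi).trans h

lemma measurableSet_le_qS {b : ℕ} (j : ℕ) (hb : 0 < b) :
    MeasurableSet {p : (ℕ → ℝ) × ℝ | j ≤ qS b p.1 p.2} := by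
  by_cases hj : j < b
  · have : {p : (ℕ → ℝ) × ℝ | j ≤ qS b p.1 p.2} =
        ⋂ i ∈ Set.Iic j, ({p : (ℕ → ℝ) × ℝ | cum p.1 i ≤ p.2} ∪ {p | i = 0}) := by
      ext p
      simp only [mem_ofPred_eq, mem_iInter, mem_Iic, mem_union]
      exact le_qS_iff hj _ _
    rw [this]
    refine MeasurableSet.biInter (Set.to_countable _) fun i _ => ?_
    refine MeasurableSet.union ?_ (MeasurableSet.const _)
    exact measurableSet_le ((measurable_cum i).comp measurable_fst) measurable_snd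
  · have : {p : (ℕ → ℝ) × ℝ | j ≤ qS b p.1 p.2} = ∅ := by
      ext p
      simp only [mem_ofPred_eq, mem_empty_iff_false, iff_false, not_le]
      have := qS_lt hb p.1 p.2
      omega
    rw [this]
    exact MeasurableSet.empty

lemma measurable_qS {b : ℕ} (hb : 0 < b) :
    Measurable (fun p : (ℕ → ℝ) × ℝ => qS b p.1 p.2) := by
  refine measurable_to_countable' fun n => ?_
  have : (fun p : (ℕ → ℝ) × ℝ => qS b p.1 p.2) ⁻¹' {n} =
      {p : (ℕ → ℝ) × ℝ | n ≤ qS b p.1 p.2} \ {p : (ℕ → ℝ) × ℝ | n + 1 ≤ qS b p.1 p.2} := by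
    ext p
    simp only [mem_preimage, mem_singleton_iff, mem_sdiff, mem_ofPred_eq]
    omega
  rw [this]
  exact (measurableSet_le_qS n hb).diff (measurableSet_le_qS (n + 1) hb)

lemma leb_ae : ∀ᵐ u ∂leb, 0 ≤ u ∧ u < 1 := by
  unfold leb
  rw [ae_restrict_iff' measurableSet_Icc]
  have h1 : ∀ᵐ u : ℝ, u ≠ 1 := by
    rw [ae_iff]
    simp
  filter_upwards [h1] with u hu hu'
  exact ⟨hu'.1, lt_of_le_of_ne hu'.2 hu⟩

lemma leb_le (s : Set ℝ) : leb s ≤ volume s := by
  unfold leb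
  exact Measure.restrict_le_self s

lemma leb_Ico {α β : ℝ} (h0 : 0 ≤ α) (h1 : β ≤ 1) : leb (Ico α β) = ENNReal.ofReal (β - α) := by
  unfold leb
  rw [Measure.restrict_apply measurableSet_Ico, inter_eq_left.2, Real.volume_Ico]
  intro x hx
  exact ⟨h0.trans hx.1, hx.2.le.trans h1⟩

lemma qS_law {b : ℕ} (hb : 0 < b) (w : ℕ → ℝ) (hw : IsPV b w) (c : ℕ) (hc : c < b) :
    leb {u | qS b w u = c} = ENNReal.ofReal (w c) := by
  have hcum : cum w b = 1 := hw.sum
  have h : {u | qS b w u = c} =ᵐ[leb] Ico (cum w c) (cum w (c + 1)) := by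
    rw [Filter.eventuallyEq_set]
    filter_upwards [leb_ae] with u hu
    simp only [mem_Ico]
    rw [← le_qS_iff' hc hw.nonneg hu.1]
    by_cases hc' : c + 1 < b
    · have h2 := le_qS_iff' hc' hw.nonneg hu.1
      rw [← not_le, ← h2]
      omega
    · have h3 : c + 1 = b := by omega
      rw [h3, hcum]
      have h4 := qS_lt hb w u
      constructor
      · intro h5
        exact ⟨h5.ge, hu.2⟩
      · intro h5
        omega
  rw [measure_congr h, leb_Ico, cum_succ]
  · congr 1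
    ring
  · rw [← cum_zero w]
    exact cum_mono hw.nonneg (Nat.zero_le _)
  · rw [← hcum]
    exact cum_mono hw.nonneg (by omega)

/-- the discrepancy of the quantile rule -/
noncomputable def κq (c c' : ℕ) : ℝ≥0∞ := ENNReal.ofReal |(c : ℝ) - c'|

lemma nat_eq_sum_ind {b n : ℕ} (hn : n < b) :
    (n : ℝ) = ∑ j ∈ Finset.Ioo 0 b, if j ≤ n then (1 : ℝ) else 0 := by
  rw [← Finset.sum_filter, Finset.sum_const, nsmul_eq_mul, mul_one]
  have : Finset.filter (fun j => j ≤ n) (Finset.Ioo 0 b) = Finset.Ioc 0 n := by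
    ext j
    simp only [Finset.mem_filter, Finset.mem_Ioo, Finset.mem_Ioc]
    omega
  rw [this]
  simp

lemma int_sum_abs {ι : Type*} (s : Finset ι) (f g : ι → ℝ) :
    ENNReal.ofReal |∑ i ∈ s, f i - ∑ i ∈ s, g i| ≤ ∑ i ∈ s, ENNReal.ofReal |f i - g i| := by
  rw [← Finset.sum_sub_distrib, ← ENNReal.ofReal_sum_of_nonneg fun _ _ => abs_nonneg _]
  exact ENNReal.ofReal_le_ofReal (Finset.abs_sum_le_sum_abs _ _)

/-- two thresholds against one uniform variable -/
lemma lint_threshold (α β : ℝ) :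
    ∫⁻ u, ENNReal.ofReal |(if α ≤ u then (1 : ℝ) else 0) - (if β ≤ u then (1 : ℝ) else 0)| ∂leb ≤
      ENNReal.ofReal |α - β| := by
  have h : ∀ u, ENNReal.ofReal |(if α ≤ u then (1 : ℝ) else 0) - (if β ≤ u then (1 : ℝ) else 0)| =
      (Ico (min α β) (max α β)).indicator 1 u := by
    intro u
    simp only [indicator, mem_Ico, min_le_iff, lt_max_iff]
    by_cases h1 : α ≤ u <;> by_cases h2 : β ≤ u
    · simp [h1, h2, not_lt.2 h1, not_lt.2 h2]
    · simp [h1, h2, not_le.1 h2]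
    · simp [h1, h2, not_le.1 h1]
    · simp [h1, h2]
  simp_rw [h]
  rw [lintegral_indicator_one measurableSet_Ico]
  refine (leb_le _).trans ?_
  rw [Real.volume_Ico, max_sub_min_eq_abs']

lemma qS_cost {b : ℕ} (hb : 0 < b) (w w' : ℕ → ℝ) (hw : IsPV b w) (hw' : IsPV b w') :
    ∫⁻ u, κq (qS b w u) (qS b w' u) ∂leb ≤
      ∑ j ∈ Finset.Ioo 0 b, ENNReal.ofReal
        |∑ c ∈ Finset.range j, w c - ∑ c ∈ Finset.range j, w' c| := by
  have h1 : ∀ᵐ u ∂leb, κq (qS b w u) (qS b w' u) ≤ ∑ j ∈ Finset.Ioo 0 b, ENNReal.ofReal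
      |(if cum w j ≤ u then (1 : ℝ) else 0) - (if cum w' j ≤ u then (1 : ℝ) else 0)| := by
    filter_upwards [leb_ae] with u hu
    unfold κq
    rw [nat_eq_sum_ind (qS_lt hb w u), nat_eq_sum_ind (qS_lt hb w' u)]
    refine (int_sum_abs _ _ _).trans ?_
    refine Finset.sum_le_sum fun j hj => ?_
    rw [Finset.mem_Ioo] at hj
    simp_rw [le_qS_iff' hj.2 hw.nonneg hu.1, le_qS_iff' hj.2 hw'.nonneg hu.1]
    exact le_rfl
  refine (lintegral_mono_ae h1).trans ?_
  rw [lintegral_finsetSum']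
  · refine Finset.sum_le_sum fun j _ => ?_
    exact lint_threshold _ _
  · intro j _
    refine Measurable.aemeasurable ?_
    refine ENNReal.measurable_ofReal.comp ?_
    refine Measurable.abs ?_
    refine Measurable.sub ?_ ?_
    · exact Measurable.ite measurableSet_Ici measurable_const measurable_const
    · exact Measurable.ite measurableSet_Ici measurable_const measurable_const

/-- The quantile rule. -/
noncomputable def qRule {b : ℕ} (hb : 0 < b) :
    Rule b (Finset.Ioo 0 b) Finset.range κq where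
  S := qS b
  lt := qS_lt hb
  meas := measurable_qS hb
  law := qS_law hb
  cost := qS_cost hb

end Pool.Agent.K1H26.PC
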