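import Mathlib
import Pool.Agent.K1H26.PC.Rule

/-!
# The random path down the `b`-adic tree
-/

set_option autoImplicit false
set_option maxHeartbeats 4000000

open MeasureTheory Set ProbabilityTheory Filter
open scoped NNReal ENNReal Topology

namespace Pool.Agent.K1H26.PC

open Pool.Agent.R972.PC

/-- grid point -/
noncomputable def gp (b m : ℕ) (i : ℤ) (θ : ℝ) : ℝ := i / (b : ℝ) ^ m - θ

/-- mass to the left -/
noncomputable def lm (P : Measure ℝ) (x : ℝ) : ℝ := P.real (Iio x)

/-- mass of a cell -/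
noncomputable def pm (P : Measure ℝ) (b m : ℕ) (i : ℤ) (θ : ℝ) : ℝ :=
  lm P (gp b m (i + 1) θ) - lm P (gp b m i θ)

/-- conditional weights of the children -/
noncomputable def cw (P : Measure ℝ) (b m : ℕ) (i : ℤ) (θ : ℝ) : ℕ → ℝ := fun c =>
  if pm P b m i θ = 0 then (if c = 0 then 1 else 0)
  else pm P b (m + 1) (b * i + c) θ / pm P b m i θ

/-- the top selection -/
noncomputable def top (P : Measure ℝ) (b : ℕ) (θ u : ℝ) : ℤ :=
  by classical exact
    if h : ∃ k : ℤ, lm P (gp b 0 k θ) ≤ u ∧ u < lm P (gp b 0 (k + 1) θ) then h.choose else 0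

variable {b : ℕ} {J : Finset ℕ} {A : ℕ → Finset ℕ} {κ : ℕ → ℕ → ℝ≥0∞}

/-- the index process -/
noncomputable def Ix (R : Rule b J A κ) (P : Measure ℝ) : ℕ → ℝ → (ℕ → ℝ) → ℤ
  | 0, θ, u => top P b θ (u 0)
  | m + 1, θ, u => b * Ix R P m θ u + R.S (cw P b m (Ix R P m θ u) θ) (u (m + 1))

lemma Ix_zero (R : Rule b J A κ) (P : Measure ℝ) (θ : ℝ) (u : ℕ → ℝ) :
    Ix R P 0 θ u = top P b θ (u 0) := rfl

lemma Ix_succ (R : Rule b J A κ) (P : Measure ℝ) (m : ℕ) (θ : ℝ) (u : ℕ → ℝ) :
    Ix R P (m + 1) θ u =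
      b * Ix R P m θ u + R.S (cw P b m (Ix R P m θ u) θ) (u (m + 1)) := rfl

/-! ### elementary facts -/

lemma lm_mono (P : Measure ℝ) [IsProbabilityMeasure P] : Monotone (lm P) := by
  intro x y h
  unfold lm
  exact measureReal_mono (Iio_subset_Iio h)

lemma lm_nonneg (P : Measure ℝ) (x : ℝ) : 0 ≤ lm P x := measureReal_nonneg

lemma lm_le_one (P : Measure ℝ) [IsProbabilityMeasure P] (x : ℝ) : lm P x ≤ 1 :=
  measureReal_le_one

lemma gp_lt (hb : 0 < b) (m : ℕ) {i j : ℤ} (h : i < j) (θ : ℝ) : gp b m i θ < gp b m j θ := by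
  unfold gp
  have h1 : (0 : ℝ) < (b : ℝ) ^ m := by positivity
  have h2 : (i : ℝ) < j := by exact_mod_cast h
  have := div_lt_div_of_pos_right h2 h1
  linarith

lemma gp_le (hb : 0 < b) (m : ℕ) {i j : ℤ} (h : i ≤ j) (θ : ℝ) : gp b m i θ ≤ gp b m j θ := by
  rcases h.eq_or_lt with h | h
  · rw [h]
  · exact (gp_lt hb m h θ).le

lemma gp_child (hb : 0 < b) (m : ℕ) (i : ℤ) (θ : ℝ) : gp b (m + 1) (b * i) θ = gp b m i θ := by
  unfold gp
  have h1 : (b : ℝ) ≠ 0 := by positivity
  push_cast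
  rw [pow_succ']
  field_simp

lemma gp_zero (i : ℤ) (θ : ℝ) : gp b 0 i θ = i - θ := by
  unfold gp
  simp

lemma gp_succ (m : ℕ) (i : ℤ) (θ : ℝ) : gp b m (i + 1) θ = gp b m i θ + 1 / (b : ℝ) ^ m := by
  unfold gp
  push_cast
  ring

lemma pm_nonneg (hb : 0 < b) (P : Measure ℝ) [IsProbabilityMeasure P] (m : ℕ) (i : ℤ) (θ : ℝ) :
    0 ≤ pm P b m i θ := by
  unfold pm
  have := lm_mono P (gp_le hb m (by omega : i ≤ i + 1) θ)
  linarith

lemma pm_sum (P : Measure ℝ) (m : ℕ) (i : ℤ) (θ : ℝ) (n : ℕ) :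
    ∑ c ∈ Finset.range n, pm P b m (i + c) θ = lm P (gp b m (i + n) θ) - lm P (gp b m i θ) := by
  induction n with
  | zero => simp
  | succ n ih =>
    rw [Finset.sum_range_succ, ih]
    unfold pm
    push_cast
    rw [← add_assoc]
    ring

lemma pm_children (hb : 0 < b) (P : Measure ℝ) (m : ℕ) (i : ℤ) (θ : ℝ) :
    ∑ c ∈ Finset.range b, pm P b (m + 1) (b * i + c) θ = pm P b m i θ := by
  rw [pm_sum, gp_child hb, show (b : ℤ) * i + b = b * (i + 1) by ring, gp_child hb]
  rfl

lemma pm_child_le (hb : 0 < b) (P : Measure ℝ) [IsProbabilityMeasure P] (m : ℕ) (i : ℤ) (θ : ℝ)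
    {c : ℕ} (hc : c < b) : pm P b (m + 1) (b * i + c) θ ≤ pm P b m i θ := by
  rw [← pm_children hb P m i θ]
  exact Finset.single_le_sum (f := fun c : ℕ => pm P b (m + 1) (b * i + c) θ)
    (fun c _ => pm_nonneg hb P _ _ _) (Finset.mem_range.2 hc)

lemma cw_pv (hb : 0 < b) (P : Measure ℝ) [IsProbabilityMeasure P] (m : ℕ) (i : ℤ) (θ : ℝ) :
    IsPV b (cw P b m i θ) := by
  refine ⟨fun c => ?_, ?_⟩
  · unfold cw
    split_ifs
    · exact zero_le_one
    · exact le_rfl
    · exact div_nonneg (pm_nonneg hb P _ _ _) (pm_nonneg hb P _ _ _)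
  · unfold cw
    by_cases h : pm P b m i θ = 0
    · simp only [h, if_true]
      rw [Finset.sum_ite_eq']
      simp [hb]
    · simp only [h, if_false]
      rw [← Finset.sum_div, pm_children hb, div_self h]

/-! ### nested cells -/

lemma Ix_succ_le (hb : 0 < b) (R : Rule b J A κ) (P : Measure ℝ) (m : ℕ) (θ : ℝ) (u : ℕ → ℝ) :
    gp b m (Ix R P m θ u) θ ≤ gp b (m + 1) (Ix R P (m + 1) θ u) θ := by
  rw [← gp_child hb]
  refine gp_le hb _ ?_ θ
  rw [Ix_succ]
  omega

lemma Ix_succ_ge (hb : 0 < b) (R : Rule b J A κ) (P : Measure ℝ) (m : ℕ) (θ : ℝ) (u : ℕ → ℝ) :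
    gp b (m + 1) (Ix R P (m + 1) θ u + 1) θ ≤ gp b m (Ix R P m θ u + 1) θ := by
  rw [← gp_child hb m]
  refine gp_le hb _ ?_ θ
  rw [Ix_succ]
  have := R.lt (cw P b m (Ix R P m θ u) θ) (u (m + 1))
  rw [mul_add, mul_one]
  omega

lemma Ix_left_mono (hb : 0 < b) (R : Rule b J A κ) (P : Measure ℝ) (θ : ℝ) (u : ℕ → ℝ) :
    Monotone fun m => gp b m (Ix R P m θ u) θ :=
  monotone_nat_of_le_succ fun m => Ix_succ_le hb R P m θ u

lemma Ix_right_anti (hb : 0 < b) (R : Rule b J A κ) (P : Measure ℝ) (θ : ℝ) (u : ℕ → ℝ) :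
    Antitone fun m => gp b m (Ix R P m θ u + 1) θ :=
  antitone_nat_of_succ_le fun m => Ix_succ_ge hb R P m θ u

/-- the limit point -/
noncomputable def Xl (R : Rule b J A κ) (P : Measure ℝ) (θ : ℝ) (u : ℕ → ℝ) : ℝ :=
  ⨆ m, gp b m (Ix R P m θ u) θ

lemma Ix_bdd (hb : 0 < b) (R : Rule b J A κ) (P : Measure ℝ) (θ : ℝ) (u : ℕ → ℝ) (n m : ℕ) :
    gp b n (Ix R P n θ u) θ ≤ gp b m (Ix R P m θ u + 1) θ := by
  rcases le_total n m with h | h
  · exact (Ix_left_mono hb R P θ u h).trans (gp_le hb m (by omega) θ)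
  · exact (gp_le hb n (by omega) θ).trans (Ix_right_anti hb R P θ u h)

lemma Xl_bdd (hb : 0 < b) (R : Rule b J A κ) (P : Measure ℝ) (θ : ℝ) (u : ℕ → ℝ) :
    BddAbove (range fun m => gp b m (Ix R P m θ u) θ) := by
  refine ⟨gp b 0 (Ix R P 0 θ u + 1) θ, ?_⟩
  rintro _ ⟨n, rfl⟩
  exact Ix_bdd hb R P θ u n 0

lemma le_Xl (hb : 0 < b) (R : Rule b J A κ) (P : Measure ℝ) (θ : ℝ) (u : ℕ → ℝ) (m : ℕ) :
    gp b m (Ix R P m θ u) θ ≤ Xl R P θ u :=
  le_ciSup (Xl_bdd hb R P θ u) m

lemma Xl_le (hb : 0 < b) (R : Rule b J A κ) (P : Measure ℝ) (θ : ℝ) (u : ℕ → ℝ) (m : ℕ) :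
    Xl R P θ u ≤ gp b m (Ix R P m θ u + 1) θ :=
  ciSup_le fun n => Ix_bdd hb R P θ u n m

lemma tendsto_Xl (hb : 0 < b) (R : Rule b J A κ) (P : Measure ℝ) (θ : ℝ) (u : ℕ → ℝ) :
    Tendsto (fun m => gp b m (Ix R P m θ u) θ) atTop (𝓝 (Xl R P θ u)) :=
  tendsto_atTop_ciSup (Ix_left_mono hb R P θ u) (Xl_bdd hb R P θ u)

/-! ### measurability -/

lemma measurable_lm (P : Measure ℝ) [IsProbabilityMeasure P] : Measurable (lm P) :=
  (lm_mono P).measurable

lemma measurable_gp (m : ℕ) (i : ℤ) : Measurable (gp b m i) := by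
  unfold gp
  fun_prop

lemma measurable_pm (P : Measure ℝ) [IsProbabilityMeasure P] (m : ℕ) (i : ℤ) :
    Measurable (pm P b m i) := by
  unfold pm
  exact ((measurable_lm P).comp (measurable_gp m _)).sub
    ((measurable_lm P).comp (measurable_gp m _))

lemma measurable_cw (P : Measure ℝ) [IsProbabilityMeasure P] (m : ℕ) (i : ℤ) :
    Measurable (cw P b m i) := by
  refine measurable_pi_lambda _ fun c => ?_
  unfold cw
  refine Measurable.ite ?_ measurable_const ?_
  · exact measurable_pm P m i (measurableSet_singleton 0)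
  · exact (measurable_pm P (m + 1) _).div (measurable_pm P m i)

/-- level sets of the top selection -/
def topSet (P : Measure ℝ) (b : ℕ) (k : ℤ) : Set (ℝ × ℝ) :=
  {p | lm P (gp b 0 k p.1) ≤ p.2 ∧ p.2 < lm P (gp b 0 (k + 1) p.1)}

lemma measurableSet_topSet (P : Measure ℝ) [IsProbabilityMeasure P] (k : ℤ) :
    MeasurableSet (topSet P b k) := by
  refine MeasurableSet.inter ?_ ?_
  · exact measurableSet_le (((measurable_lm P).comp (measurable_gp 0 k)).comp measurable_fst)
      measurable_snd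
  · exact measurableSet_lt measurable_snd
      (((measurable_lm P).comp (measurable_gp 0 (k + 1))).comp measurable_fst)

lemma topSet_unique (hb : 0 < b) (P : Measure ℝ) [IsProbabilityMeasure P] {k l : ℤ} {p : ℝ × ℝ}
    (hk : p ∈ topSet P b k) (hl : p ∈ topSet P b l) : k = l := by
  by_contra hne
  wlog h : k < l generalizing k l
  · exact this hl hk (Ne.symm hne) (lt_of_le_of_ne (not_lt.1 h) (Ne.symm hne))
  · have h1 := lm_mono P (gp_le hb 0 (by omega : k + 1 ≤ l) p.1)
    exact absurd (hk.2.trans_le h1) (not_lt.2 hl.1)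

lemma top_eq (hb : 0 < b) (P : Measure ℝ) [IsProbabilityMeasure P] {k : ℤ} {θ u : ℝ}
    (hk : (θ, u) ∈ topSet P b k) : top P b θ u = k := by
  classical
  have h : ∃ k : ℤ, lm P (gp b 0 k θ) ≤ u ∧ u < lm P (gp b 0 (k + 1) θ) := ⟨k, hk⟩
  unfold top
  rw [dif_pos h]
  exact topSet_unique hb P (p := (θ, u)) h.choose_spec hk

lemma measurable_top (hb : 0 < b) (P : Measure ℝ) [IsProbabilityMeasure P] :
    Measurable fun p : ℝ × ℝ => top P b p.1 p.2 := by
  classical
  refine measurable_to_countable' fun k => ?_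
  by_cases hk : k = 0
  · have : (fun p : ℝ × ℝ => top P b p.1 p.2) ⁻¹' {k} =
        topSet P b k ∪ (⋃ l, topSet P b l)ᶜ := by
      ext p
      simp only [mem_preimage, mem_singleton_iff, mem_union, mem_compl_iff, mem_iUnion]
      constructor
      · intro h
        by_cases h2 : ∃ l, p ∈ topSet P b l
        · obtain ⟨l, hl⟩ := h2
          have := top_eq hb P (θ := p.1) (u := p.2) hl
          left
          rw [← h, this]
          exact hl
        · right
          exact h2
      · rintro (h | h)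
        · exact top_eq hb P (θ := p.1) (u := p.2) h
        · rw [hk]
          unfold top
          rw [dif_neg]
          exact h
    rw [this]
    exact (measurableSet_topSet P k).union (MeasurableSet.iUnion fun l =>
      measurableSet_topSet P l).compl
  · have : (fun p : ℝ × ℝ => top P b p.1 p.2) ⁻¹' {k} = topSet P b k := by
      ext p
      simp only [mem_preimage, mem_singleton_iff]
      constructor
      · intro h
        by_cases h2 : ∃ l, p ∈ topSet P b l
        · obtain ⟨l, hl⟩ := h2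
          have := top_eq hb P (θ := p.1) (u := p.2) hl
          rw [← h, this]
          exact hl
        · exfalso
          have h3 : top P b p.1 p.2 = 0 := by
            unfold top
            rw [dif_neg]
            exact h2
          exact hk (h.symm.trans h3)
      · intro h
        exact top_eq hb P (θ := p.1) (u := p.2) h
    rw [this]
    exact measurableSet_topSet P k

lemma measurable_Ix (hb : 0 < b) (R : Rule b J A κ) (P : Measure ℝ) [IsProbabilityMeasure P]
    (m : ℕ) : Measurable fun p : ℝ × (ℕ → ℝ) => Ix R P m p.1 p.2 := by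
  induction m with
  | zero =>
    simp only [Ix_zero]
    exact (measurable_top hb P).comp
      (measurable_fst.prodMk ((measurable_pi_apply 0).comp measurable_snd))
  | succ m ih =>
    simp only [Ix_succ]
    have h1 : Measurable fun q : ℤ × (ℝ × (ℕ → ℝ)) =>
        (b : ℤ) * q.1 + R.S (cw P b m q.1 q.2.1) (q.2.2 (m + 1)) := by
      refine measurable_from_prod_countable_right fun i => ?_
      have h2 : Measurable fun p : ℝ × (ℕ → ℝ) => R.S (cw P b m i p.1) (p.2 (m + 1)) :=
        R.meas.comp (((measurable_cw P m i).comp measurable_fst).prodMk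
          ((measurable_pi_apply (m + 1)).comp measurable_snd))
      exact (measurable_from_top (f := fun n : ℕ => (b : ℤ) * i + n)).comp h2
    exact h1.comp (ih.prodMk measurable_id)

lemma measurable_Xl (hb : 0 < b) (R : Rule b J A κ) (P : Measure ℝ) [IsProbabilityMeasure P] :
    Measurable fun p : ℝ × (ℕ → ℝ) => Xl R P p.1 p.2 := by
  refine measurable_of_tendsto_metrizable (f := fun m (p : ℝ × (ℕ → ℝ)) =>
    gp b m (Ix R P m p.1 p.2) p.1) (fun m => ?_) ?_
  · have h1 : Measurable fun q : ℤ × ℝ => gp b m q.1 q.2 :=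
      measurable_from_prod_countable_right fun i => measurable_gp m i
    exact h1.comp ((measurable_Ix hb R P m).prodMk measurable_fst)
  · rw [tendsto_pi_nhds]
    intro p
    exact tendsto_Xl hb R P p.1 p.2

/-! ### laws of the indices -/

/-- the driving measure -/
noncomputable def mu : Measure (ℕ → ℝ) := Measure.infinitePi fun _ : ℕ => leb

instance : IsProbabilityMeasure mu := by unfold mu; infer_instance

lemma Ix_congr (R : Rule b J A κ) (P : Measure ℝ) (m : ℕ) (θ : ℝ) {u u' : ℕ → ℝ}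
    (h : ∀ k ≤ m, u k = u' k) : Ix R P m θ u = Ix R P m θ u' := by
  induction m with
  | zero => rw [Ix_zero, Ix_zero, h 0 le_rfl]
  | succ m ih =>
    rw [Ix_succ, Ix_succ, ih fun k hk => h k (by omega), h (m + 1) le_rfl]

lemma indep_next {β : Type*} [MeasurableSpace β] (m : ℕ) (f : (ℕ → ℝ) → β) (hf : Measurable f)
    (hc : ∀ u u' : ℕ → ℝ, (∀ k ≤ m, u k = u' k) → f u = f u') :
    IndepFun f (fun u : ℕ → ℝ => u (m + 1)) mu := by
  have h1 : iIndepFun (fun (i : ℕ) (ω : ℕ → ℝ) => ω i) mu :=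
    iIndepFun_infinitePi (X := fun _ x => x) (fun _ => measurable_id)
  have h2 := h1.indepFun_finset (Finset.range (m + 1)) {m + 1} (by simp)
    (fun i => measurable_pi_apply i)
  have h4 : Measurable fun v : (Finset.range (m + 1)) → ℝ =>
      f (fun n => if h : n ∈ Finset.range (m + 1) then v ⟨n, h⟩ else 0) := by
    refine hf.comp (measurable_pi_lambda _ fun n => ?_)
    by_cases h : n ∈ Finset.range (m + 1)
    · simp only [h, dite_true]
      exact measurable_pi_apply _
    · simp only [h, dite_false]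
      exact measurable_const
  have h5 : Measurable fun v : ({m + 1} : Finset ℕ) → ℝ => v ⟨m + 1, by simp⟩ :=
    measurable_pi_apply _
  have h3 := h2.comp h4 h5
  convert h3 using 1
  · ext u
    simp only [Function.comp]
    refine hc _ _ fun k hk => ?_
    rw [dif_pos (Finset.mem_range.2 (by omega))]
  · rfl

lemma mu_eval (i : ℕ) {s : Set ℝ} (hs : MeasurableSet s) : mu {u | u i ∈ s} = leb s := by
  have h := Measure.infinitePi_map_eval (fun _ : ℕ => leb) i
  have h2 : mu.map (fun u : ℕ → ℝ => u i) = leb := h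
  rw [← h2, Measure.map_apply (measurable_pi_apply i) hs]
  rfl

end Pool.Agent.K1H26.PC
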