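import Mathlib
import Pool.Agent.K1H26.PC.Proc

/-!
# The law of the limit point of the random path
-/

set_option autoImplicit false
set_option maxHeartbeats 4000000

open MeasureTheory Set ProbabilityTheory Filter
open scoped NNReal ENNReal Topology

namespace Pool.Agent.K1H26.PC

open Pool.Agent.R972.PC

variable {b : ℕ} {J : Finset ℕ} {A : ℕ → Finset ℕ} {κ : ℕ → ℕ → ℝ≥0∞}

lemma tendsto_lm_atTop (P : Measure ℝ) [IsProbabilityMeasure P] :
    Tendsto (lm P) atTop (𝓝 1) := by
  have h1 : Tendsto (fun x : ℝ => P (Iio x)) atTop (𝓝 (P (⋃ x : ℝ, Iio x))) :=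
    tendsto_measure_iUnion_atTop (fun x y h => Iio_subset_Iio h)
  have h2 : (⋃ x : ℝ, Iio x) = univ := by
    ext y
    simp only [mem_iUnion, mem_Iio, mem_univ, iff_true]
    exact exists_gt y
  rw [h2, measure_univ] at h1
  have h3 := (ENNReal.tendsto_toReal ENNReal.one_ne_top).comp h1
  rw [ENNReal.toReal_one] at h3
  exact h3

lemma tendsto_lm_atBot (P : Measure ℝ) [IsProbabilityMeasure P] :
    Tendsto (lm P) atBot (𝓝 0) := by
  have h1 : Tendsto (fun x : ℝ => P (Iio x)) atBot (𝓝 (P (⋂ x : ℝ, Iio x))) := by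
    refine tendsto_measure_iInter_atBot (fun x => measurableSet_Iio.nullMeasurableSet)
      (fun x y h => Iio_subset_Iio h) ⟨0, measure_ne_top _ _⟩
  have h2 : (⋂ x : ℝ, Iio x) = ∅ := by
    ext y
    simp only [mem_iInter, mem_Iio, mem_empty_iff_false, iff_false, not_forall, not_lt]
    exact ⟨y, le_rfl⟩
  rw [h2, measure_empty] at h1
  have h3 := (ENNReal.tendsto_toReal ENNReal.zero_ne_top).comp h1
  rw [ENNReal.toReal_zero] at h3
  exact h3

lemma leb_pos_ae : ∀ᵐ u ∂leb, 0 < u ∧ u < 1 := by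
  have h1 : ∀ᵐ u ∂leb, u ≠ 0 := by
    rw [ae_iff]
    refine le_antisymm ((leb_le _).trans ?_) bot_le
    simp
  filter_upwards [leb_ae, h1] with u hu hu'
  exact ⟨lt_of_le_of_ne hu.1 (Ne.symm hu'), hu.2⟩

lemma exists_topSet (P : Measure ℝ) [IsProbabilityMeasure P] (θ : ℝ) {u : ℝ}
    (hu : 0 < u ∧ u < 1) : ∃ k : ℤ, (θ, u) ∈ topSet P b k := by
  obtain ⟨x, hx⟩ := ((tendsto_lm_atBot P).eventually (gt_mem_nhds hu.1)).exists
  obtain ⟨y, hy⟩ := ((tendsto_lm_atTop P).eventually (lt_mem_nhds hu.2)).exists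
  have hb1 : ∃ B : ℤ, ∀ z : ℤ, lm P (gp b 0 z θ) ≤ u → z ≤ B := by
    refine ⟨⌈y + θ⌉, fun z hz => ?_⟩
    by_contra hlt
    push Not at hlt
    have h1 : y ≤ gp b 0 z θ := by
      rw [gp_zero]
      have h2 : y + θ ≤ ⌈y + θ⌉ := Int.le_ceil _
      have h3 : (⌈y + θ⌉ : ℝ) < z := by exact_mod_cast hlt
      linarith
    have := lm_mono P h1
    linarith
  have hb2 : ∃ z : ℤ, lm P (gp b 0 z θ) ≤ u := by
    refine ⟨⌊x + θ⌋, ?_⟩
    have h1 : gp b 0 ⌊x + θ⌋ θ ≤ x := by
      rw [gp_zero]
      have := Int.floor_le (x + θ)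
      linarith
    exact (lm_mono P h1).trans hx.le
  obtain ⟨k, hk1, hk2⟩ := Int.exists_greatest_of_bdd hb1 hb2
  refine ⟨k, hk1, ?_⟩
  by_contra h
  have := hk2 (k + 1) (not_lt.1 h)
  omega

lemma top_law (hb : 0 < b) (P : Measure ℝ) [IsProbabilityMeasure P] (θ : ℝ) (i : ℤ) :
    leb {v | top P b θ v = i} = ENNReal.ofReal (pm P b 0 i θ) := by
  have h : {v | top P b θ v = i} =ᵐ[leb] Ico (lm P (gp b 0 i θ)) (lm P (gp b 0 (i + 1) θ)) := by
    rw [Filter.eventuallyEq_set]
    filter_upwards [leb_pos_ae] with u hu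
    obtain ⟨k, hk⟩ := exists_topSet (b := b) P θ hu
    have h1 := top_eq hb P hk
    simp only [mem_Ico]
    rw [h1]
    constructor
    · rintro rfl
      exact hk
    · intro h2
      exact topSet_unique hb P hk (p := (θ, u)) h2
  rw [measure_congr h, leb_Ico (lm_nonneg _ _) (lm_le_one _ _)]
  rfl

lemma measurable_Ix' (hb : 0 < b) (R : Rule b J A κ) (P : Measure ℝ) [IsProbabilityMeasure P]
    (m : ℕ) (θ : ℝ) : Measurable fun u : ℕ → ℝ => Ix R P m θ u :=
  (measurable_Ix hb R P m).comp (measurable_const.prodMk measurable_id)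

lemma Ix_law (hb : 0 < b) (R : Rule b J A κ) (P : Measure ℝ) [IsProbabilityMeasure P]
    (θ : ℝ) (m : ℕ) : ∀ i : ℤ, mu {u | Ix R P m θ u = i} = ENNReal.ofReal (pm P b m i θ) := by
  induction m with
  | zero =>
    intro i
    rw [← top_law hb P θ i]
    have h1 : MeasurableSet {v | top P b θ v = i} :=
      ((measurable_top hb P).comp (measurable_const.prodMk measurable_id))
        (measurableSet_singleton i)
    exact mu_eval 0 h1
  | succ m ih =>
    intro i'
    have hbz : (0 : ℤ) < b := by exact_mod_cast hb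
    obtain ⟨i, hi⟩ : ∃ i : ℤ, i = i' / b := ⟨_, rfl⟩
    obtain ⟨c, hc⟩ : ∃ c : ℕ, (c : ℤ) = i' % b := by
      refine ⟨(i' % b).toNat, ?_⟩
      rw [Int.toNat_of_nonneg (Int.emod_nonneg _ hbz.ne')]
    have hcb : c < b := by
      have := Int.emod_lt_of_pos i' hbz
      omega
    have hi' : i' = b * i + c := by
      rw [hi, hc]
      exact (Int.mul_ediv_add_emod i' b).symm
    have h1 : {u | Ix R P (m + 1) θ u = i'} =
        (fun u => Ix R P m θ u) ⁻¹' {i} ∩
          (fun u : ℕ → ℝ => u (m + 1)) ⁻¹' {v | R.S (cw P b m i θ) v = c} := by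
      ext u
      simp only [mem_ofPred_eq, mem_inter_iff, mem_preimage, mem_singleton_iff]
      rw [Ix_succ]
      constructor
      · intro h
        have h2 := R.lt (cw P b m (Ix R P m θ u) θ) (u (m + 1))
        have h3 : Ix R P m θ u = i := by
          rw [hi, ← h]
          rw [mul_comm, add_comm, Int.add_mul_ediv_right _ _ hbz.ne',
            Int.ediv_eq_zero_of_lt (by omega) (by omega), zero_add]
        refine ⟨h3, ?_⟩
        rw [h3, hi'] at h
        omega
      · rintro ⟨h2, h3⟩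
        rw [h2, h3, hi']
    have h2 := indep_next m (fun u => Ix R P m θ u) (measurable_Ix' hb R P m θ)
      (fun u u' h => Ix_congr R P m θ h)
    have hS : Measurable fun v : ℝ => R.S (cw P b m i θ) v :=
      R.meas.comp (measurable_const.prodMk measurable_id)
    have hSm : MeasurableSet {v | R.S (cw P b m i θ) v = c} := hS (measurableSet_singleton c)
    rw [h1, h2.measure_inter_preimage_eq_mul _ _ (measurableSet_singleton i) hSm]
    have h3 : mu ((fun u => Ix R P m θ u) ⁻¹' {i}) = ENNReal.ofReal (pm P b m i θ) := ih i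
    have h4 : mu ((fun u : ℕ → ℝ => u (m + 1)) ⁻¹' {v | R.S (cw P b m i θ) v = c}) =
        ENNReal.ofReal (cw P b m i θ c) := by
      rw [← R.law _ (cw_pv hb P m i θ) c hcb]
      exact mu_eval (m + 1) hSm
    rw [h3, h4, ← ENNReal.ofReal_mul (pm_nonneg hb P _ _ _), hi']
    congr 1
    by_cases h5 : pm P b m i θ = 0
    · rw [h5, zero_mul]
      have h6 := pm_child_le hb P m i θ hcb
      have h7 := pm_nonneg hb P (m + 1) (b * i + c) θ
      linarith
    · unfold cw
      rw [if_neg h5]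
      field_simp

/-- index of the cell of a point -/
noncomputable def idx (b m : ℕ) (θ x : ℝ) : ℤ := ⌊(x + θ) * (b : ℝ) ^ m⌋

lemma idx_eq_iff (hb : 0 < b) (m : ℕ) (θ x : ℝ) (i : ℤ) :
    idx b m θ x = i ↔ gp b m i θ ≤ x ∧ x < gp b m (i + 1) θ := by
  unfold idx gp
  have h1 : (0 : ℝ) < (b : ℝ) ^ m := by positivity
  rw [Int.floor_eq_iff, sub_le_iff_le_add, lt_sub_iff_add_lt, div_le_iff₀ h1, lt_div_iff₀ h1]
  push_cast
  rfl

lemma measurable_idx (m : ℕ) (θ : ℝ) : Measurable (idx b m θ) := by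
  unfold idx
  fun_prop

lemma measure_Ico_eq (P : Measure ℝ) [IsProbabilityMeasure P] {x y : ℝ} (h : x ≤ y) :
    P (Ico x y) = ENNReal.ofReal (lm P y - lm P x) := by
  have h1 : Ico x y = Iio y \ Iio x := by
    ext z
    simp only [mem_Ico, Set.mem_sdiff, mem_Iio, not_lt]
    tauto
  rw [h1, measure_sdiff (Iio_subset_Iio h) measurableSet_Iio.nullMeasurableSet
    (measure_ne_top _ _)]
  unfold lm Measure.real
  rw [ENNReal.ofReal_sub _ ENNReal.toReal_nonneg, ENNReal.ofReal_toReal (measure_ne_top _ _),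
    ENNReal.ofReal_toReal (measure_ne_top _ _)]

lemma idx_law (hb : 0 < b) (P : Measure ℝ) [IsProbabilityMeasure P] (θ : ℝ) (m : ℕ) (i : ℤ) :
    P {x | idx b m θ x = i} = ENNReal.ofReal (pm P b m i θ) := by
  have h : {x | idx b m θ x = i} = Ico (gp b m i θ) (gp b m (i + 1) θ) := by
    ext x
    exact idx_eq_iff hb m θ x i
  rw [h, measure_Ico_eq P (gp_le hb m (by omega) θ)]
  rfl

lemma map_Ix (hb : 0 < b) (R : Rule b J A κ) (P : Measure ℝ) [IsProbabilityMeasure P]
    (θ : ℝ) (m : ℕ) : mu.map (fun u => Ix R P m θ u) = P.map (idx b m θ) := by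
  refine Measure.ext_of_singleton fun i => ?_
  rw [Measure.map_apply (measurable_Ix' hb R P m θ) (measurableSet_singleton i),
    Measure.map_apply (measurable_idx m θ) (measurableSet_singleton i)]
  exact (Ix_law hb R P θ m i).trans (idx_law hb P θ m i).symm

lemma tendsto_idx (hb : 1 < b) (θ x : ℝ) :
    Tendsto (fun m => gp b m (idx b m θ x) θ) atTop (𝓝 x) := by
  have hb0 : 0 < b := by omega
  have h1 : ∀ m, x - (1 / (b : ℝ)) ^ m ≤ gp b m (idx b m θ x) θ := by
    intro m
    have h2 := ((idx_eq_iff hb0 m θ x _).1 rfl).2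
    rw [gp_succ] at h2
    rw [one_div_pow]
    linarith
  have h2 : ∀ m, gp b m (idx b m θ x) θ ≤ x := fun m => ((idx_eq_iff hb0 m θ x _).1 rfl).1
  have h3 : Tendsto (fun m => x - (1 / (b : ℝ)) ^ m) atTop (𝓝 (x - 0)) := by
    refine tendsto_const_nhds.sub ?_
    refine tendsto_pow_atTop_nhds_zero_of_lt_one (by positivity) ?_
    rw [div_lt_one (by positivity)]
    exact_mod_cast hb
  rw [sub_zero] at h3
  exact tendsto_of_tendsto_of_tendsto_of_le_of_le h3 tendsto_const_nhds h1 h2

lemma measurable_Xl' (hb : 0 < b) (R : Rule b J A κ) (P : Measure ℝ) [IsProbabilityMeasure P]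
    (θ : ℝ) : Measurable fun u : ℕ → ℝ => Xl R P θ u :=
  (measurable_Xl hb R P).comp (measurable_const.prodMk measurable_id)

theorem Xl_law (hb : 1 < b) (R : Rule b J A κ) (P : Measure ℝ) [IsProbabilityMeasure P]
    (θ : ℝ) : mu.map (fun u => Xl R P θ u) = P := by
  have hb0 : 0 < b := by omega
  have hX := measurable_Xl' hb0 R P θ
  have : IsProbabilityMeasure (mu.map (fun u => Xl R P θ u)) :=
    Measure.isProbabilityMeasure_map hX.aemeasurable
  refine ext_of_forall_integral_eq_of_IsFiniteMeasure fun f => ?_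
  rw [integral_map hX.aemeasurable f.continuous.aestronglyMeasurable]
  have hgp : ∀ m, Measurable fun i : ℤ => gp b m i θ := fun m => measurable_from_top
  have h1 : Tendsto (fun m => ∫ u, f (gp b m (Ix R P m θ u) θ) ∂mu) atTop
      (𝓝 (∫ u, f (Xl R P θ u) ∂mu)) := by
    refine tendsto_integral_of_dominated_convergence (fun _ => ‖f‖) ?_ ?_ ?_ ?_
    · intro m
      exact (f.continuous.measurable.comp
        ((hgp m).comp (measurable_Ix' hb0 R P m θ))).aestronglyMeasurable
    · exact integrable_const _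
    · intro m
      exact Eventually.of_forall fun u => f.norm_coe_le_norm _
    · exact Eventually.of_forall fun u =>
        (f.continuous.tendsto _).comp (tendsto_Xl hb0 R P θ u)
  have h2 : Tendsto (fun m => ∫ x, f (gp b m (idx b m θ x) θ) ∂P) atTop
      (𝓝 (∫ x, f x ∂P)) := by
    refine tendsto_integral_of_dominated_convergence (fun _ => ‖f‖) ?_ ?_ ?_ ?_
    · intro m
      exact (f.continuous.measurable.comp
        ((hgp m).comp (measurable_idx m θ))).aestronglyMeasurable
    · exact integrable_const _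
    · intro m
      exact Eventually.of_forall fun u => f.norm_coe_le_norm _
    · exact Eventually.of_forall fun x =>
        (f.continuous.tendsto _).comp (tendsto_idx hb θ x)
  have h3 : ∀ m, ∫ u, f (gp b m (Ix R P m θ u) θ) ∂mu = ∫ x, f (gp b m (idx b m θ x) θ) ∂P := by
    intro m
    have h4 : AEStronglyMeasurable (fun i : ℤ => f (gp b m i θ)) (mu.map fun u => Ix R P m θ u) :=
      (f.continuous.measurable.comp (hgp m)).aestronglyMeasurable
    have h5 := integral_map (measurable_Ix' hb0 R P m θ).aemeasurable h4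
    rw [map_Ix hb0 R P θ m] at h5
    have h6 : AEStronglyMeasurable (fun i : ℤ => f (gp b m i θ)) (P.map (idx b m θ)) :=
      (f.continuous.measurable.comp (hgp m)).aestronglyMeasurable
    rw [integral_map (measurable_idx m θ).aemeasurable h6] at h5
    exact h5.symm
  simp_rw [h3] at h1
  exact tendsto_nhds_unique h1 h2

end Pool.Agent.K1H26.PC
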