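import Mathlib
import Pool.Agent.K1H26.PC.Law

/-!
# The expected cost of a separation, for a fixed grid
-/

set_option autoImplicit false
set_option maxHeartbeats 4000000

open MeasureTheory Set ProbabilityTheory Filter
open scoped NNReal ENNReal Topology

namespace Pool.Agent.K1H26.PC

open Pool.Agent.R972.PC

variable {b : ℕ} {J : Finset ℕ} {A : ℕ → Finset ℕ} {κ : ℕ → ℕ → ℝ≥0∞}

/-! ### a real inequality -/

lemma ratio_sum_aux (J : Finset ℕ) (L : ℝ) {m m' : ℝ} (hm : 0 < m) (hmm : m ≤ m')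
    (a a' : ℕ → ℝ) (ha' : ∀ j ∈ J, 0 ≤ a' j) (hL : ∑ j ∈ J, a' j ≤ L * m') :
    m * ∑ j ∈ J, |a j / m - a' j / m'| ≤ ∑ j ∈ J, |a j - a' j| + L * |m - m'| := by
  have hm' : 0 < m' := hm.trans_le hmm
  have h1 : ∀ j ∈ J, m * |a j / m - a' j / m'| ≤ |a j - a' j| + a' j * ((m' - m) / m') := by
    intro j hj
    have h2 : m * |a j / m - a' j / m'| = |a j - a' j + a' j * ((m' - m) / m')| := by
      rw [← abs_of_pos hm, ← abs_mul, abs_of_pos hm]
      congr 1
      field_simp
      ring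
    rw [h2]
    refine (abs_add_le _ _).trans ?_
    have h3 : 0 ≤ a' j * ((m' - m) / m') :=
      mul_nonneg (ha' j hj) (div_nonneg (by linarith) hm'.le)
    rw [abs_of_nonneg h3]
  rw [Finset.mul_sum]
  refine (Finset.sum_le_sum h1).trans ?_
  rw [Finset.sum_add_distrib, ← Finset.sum_mul]
  have h4 : |m - m'| = m' - m := by
    rw [abs_sub_comm, abs_of_nonneg (by linarith)]
  rw [h4]
  have h5 : (∑ j ∈ J, a' j) * ((m' - m) / m') ≤ L * m' * ((m' - m) / m') :=
    mul_le_mul_of_nonneg_right hL (div_nonneg (by linarith) hm'.le)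
  have h6 : L * m' * ((m' - m) / m') = L * (m' - m) := by
    field_simp
  linarith

lemma ratio_sum (J : Finset ℕ) (L : ℝ) {m m' : ℝ} (hm : 0 ≤ m) (hm' : 0 ≤ m')
    (a a' : ℕ → ℝ) (ha : ∀ j ∈ J, 0 ≤ a j) (ha' : ∀ j ∈ J, 0 ≤ a' j)
    (hL : ∑ j ∈ J, a j ≤ L * m) (hL' : ∑ j ∈ J, a' j ≤ L * m') (h0 : m ≠ 0) (h0' : m' ≠ 0) :
    min m m' * ∑ j ∈ J, |a j / m - a' j / m'| ≤ ∑ j ∈ J, |a j - a' j| + L * |m - m'| := by
  rcases le_total m m' with h | h
  · rw [min_eq_left h]
    exact ratio_sum_aux J L (lt_of_le_of_ne hm (Ne.symm h0)) h a a' ha' hL'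
  · rw [min_eq_right h]
    have h1 := ratio_sum_aux J L (lt_of_le_of_ne hm' (Ne.symm h0')) h a' a ha hL
    have h2 : ∀ j, |a j / m - a' j / m'| = |a' j / m' - a j / m| := fun j => abs_sub_comm _ _
    have h3 : ∀ j, |a j - a' j| = |a' j - a j| := fun j => abs_sub_comm _ _
    simp_rw [h2, h3]
    rw [abs_sub_comm m m']
    exact h1

/-! ### cells in terms of the index -/

lemma le_idx_iff (hb : 0 < b) (m : ℕ) (θ x : ℝ) (i : ℤ) : i ≤ idx b m θ x ↔ gp b m i θ ≤ x := by
  unfold idx gp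
  have h1 : (0 : ℝ) < (b : ℝ) ^ m := by positivity
  rw [Int.le_floor, sub_le_iff_le_add, div_le_iff₀ h1]

lemma idx_child (hb : 0 < b) (m : ℕ) (θ x : ℝ) (i : ℤ) :
    idx b m θ x = i ↔ b * i ≤ idx b (m + 1) θ x ∧ idx b (m + 1) θ x < b * (i + 1) := by
  rw [idx_eq_iff hb, ← gp_child hb, ← gp_child hb m (i + 1), ← not_le, ← le_idx_iff hb,
    ← le_idx_iff hb, not_le]

/-- the part of cell `(m, i)` given by the children in `A j` -/
def Epart (b m : ℕ) (A : ℕ → Finset ℕ) (θ : ℝ) (i : ℤ) (j : ℕ) : Set ℝ :=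
  {x | ∃ c ∈ A j, idx b (m + 1) θ x = b * i + c}

lemma Epart_sub (hb : 0 < b) (m : ℕ) {θ : ℝ} {i : ℤ} {j : ℕ} (hA : A j ⊆ Finset.range b) {x : ℝ}
    (hx : x ∈ Epart b m A θ i j) : idx b m θ x = i := by
  obtain ⟨c, hc, h⟩ := hx
  have := Finset.mem_range.1 (hA hc)
  rw [idx_child hb, h, mul_add, mul_one]
  omega

lemma measurableSet_Epart (m : ℕ) (θ : ℝ) (i : ℤ) (j : ℕ) :
    MeasurableSet (Epart b m A θ i j) := by
  have : Epart b m A θ i j = ⋃ c ∈ A j, (idx b (m + 1) θ) ⁻¹' {((b : ℤ) * i + c)} := by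
    ext x
    simp only [Epart, mem_ofPred_eq, mem_iUnion, mem_preimage, mem_singleton_iff, exists_prop]
  rw [this]
  exact Finset.measurableSet_biUnion _ fun c _ =>
    measurable_idx (m + 1) θ (measurableSet_singleton _)

lemma real_idx (hb : 0 < b) (P : Measure ℝ) [IsProbabilityMeasure P] (m : ℕ) (θ : ℝ) (i : ℤ) :
    P.real {x | idx b m θ x = i} = pm P b m i θ := by
  unfold Measure.real
  rw [idx_law hb, ENNReal.toReal_ofReal (pm_nonneg hb P _ _ _)]

lemma real_Epart (hb : 0 < b) (P : Measure ℝ) [IsProbabilityMeasure P] (m : ℕ) (θ : ℝ) (i : ℤ)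
    (j : ℕ) : P.real (Epart b m A θ i j) = ∑ c ∈ A j, pm P b (m + 1) (b * i + c) θ := by
  have h1 : Epart b m A θ i j = ⋃ c ∈ A j, (idx b (m + 1) θ) ⁻¹' {((b : ℤ) * i + c)} := by
    ext x
    simp only [Epart, mem_ofPred_eq, mem_iUnion, mem_preimage, mem_singleton_iff, exists_prop]
  rw [h1, measureReal_biUnion_finset]
  · refine Finset.sum_congr rfl fun c _ => ?_
    rw [← real_idx hb P (m + 1) θ]
    rfl
  · intro c _ c' _ hcc
    rw [Function.onFun, Set.disjoint_left]
    intro x hx hx'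
    simp only [mem_preimage, mem_singleton_iff] at hx hx'
    apply hcc
    rw [hx] at hx'
    omega
  · intro c _
    exact measurable_idx (m + 1) θ (measurableSet_singleton _)

/-! ### comparison of masses through a coupling -/

/-- exactly one of two points lies in `E` -/
noncomputable def xorI (p q : Prop) : ℝ≥0∞ := by
  classical exact if (p ∧ ¬ q) ∨ (q ∧ ¬ p) then 1 else 0

lemma xorI_self (p : Prop) : xorI p p = 0 := by
  unfold xorI
  simp

lemma xorI_le_one (p q : Prop) : xorI p q ≤ 1 := by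
  unfold xorI
  split_ifs <;> simp

lemma measurable_xorI {α : Type*} [MeasurableSpace α] {p q : α → Prop}
    (hp : MeasurableSet {x | p x}) (hq : MeasurableSet {x | q x}) :
    Measurable fun x => xorI (p x) (q x) := by
  classical
  unfold xorI
  refine Measurable.ite ?_ measurable_const measurable_const
  exact (hp.inter hq.compl).union (hq.inter hp.compl)

lemma real_sub_le {P Q : Measure ℝ} [IsProbabilityMeasure P] [IsProbabilityMeasure Q]
    {π : Measure (ℝ × ℝ)} (h1 : π.map Prod.fst = P) (h2 : π.map Prod.snd = Q)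
    {E : Set ℝ} (hE : MeasurableSet E) :
    ENNReal.ofReal |P.real E - Q.real E| ≤ ∫⁻ z, xorI (z.1 ∈ E) (z.2 ∈ E) ∂π := by
  classical
  have hπ : IsProbabilityMeasure π := by
    refine ⟨?_⟩
    have h3 : (π.map Prod.fst) univ = 1 := by rw [h1]; exact measure_univ
    rwa [Measure.map_apply measurable_fst MeasurableSet.univ, preimage_univ] at h3
  have hX : ∫⁻ z, xorI (z.1 ∈ E) (z.2 ∈ E) ∂π =
      π {z | (z.1 ∈ E ∧ z.2 ∉ E) ∨ (z.2 ∈ E ∧ z.1 ∉ E)} := by
    rw [← lintegral_indicator_one]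
    · refine lintegral_congr fun z => ?_
      unfold xorI
      simp only [indicator, mem_ofPred_eq, Pi.one_apply]
    · exact ((measurable_fst hE).inter (measurable_snd hE).compl).union
        ((measurable_snd hE).inter (measurable_fst hE).compl)
  have hP : P.real E = π.real {z | z.1 ∈ E} := by
    unfold Measure.real
    rw [← h1, Measure.map_apply measurable_fst hE]
    rfl
  have hQ : Q.real E = π.real {z | z.2 ∈ E} := by
    unfold Measure.real
    rw [← h2, Measure.map_apply measurable_snd hE]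
    rfl
  rw [hX, hP, hQ, ← ofReal_measureReal (μ := π)]
  refine ENNReal.ofReal_le_ofReal ?_
  rw [abs_le]
  have h3 : π.real {z | z.1 ∈ E} ≤ π.real {z | z.2 ∈ E} +
      π.real {z | (z.1 ∈ E ∧ z.2 ∉ E) ∨ (z.2 ∈ E ∧ z.1 ∉ E)} := by
    refine (measureReal_mono ?_).trans (measureReal_union_le _ _)
    intro z hz
    simp only [mem_ofPred_eq, mem_union] at hz ⊢
    tauto
  have h4 : π.real {z | z.2 ∈ E} ≤ π.real {z | z.1 ∈ E} +
      π.real {z | (z.1 ∈ E ∧ z.2 ∉ E) ∨ (z.2 ∈ E ∧ z.1 ∉ E)} := by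
    refine (measureReal_mono ?_).trans (measureReal_union_le _ _)
    intro z hz
    simp only [mem_ofPred_eq, mem_union] at hz ⊢
    tauto
  constructor <;> linarith

/-! ### the cost of one stage -/

/-- cost of a separation at stage `m` -/
noncomputable def stage (R : Rule b J A κ) (P Q : Measure ℝ) (W : ℤ → ℝ≥0∞) (m : ℕ) (θ : ℝ)
    (u : ℕ → ℝ) : ℝ≥0∞ :=
  if Ix R P m θ u = Ix R Q m θ u then
    W (Ix R P m θ u) * κ (R.S (cw P b m (Ix R P m θ u) θ) (u (m + 1)))
      (R.S (cw Q b m (Ix R Q m θ u) θ) (u (m + 1)))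
  else 0

/-- the number of tests separating two points of the same cell, or `2L` -/
noncomputable def Nx (b : ℕ) (J : Finset ℕ) (A : ℕ → Finset ℕ) (L : ℕ) (m : ℕ) (θ x y : ℝ) :
    ℝ≥0∞ :=
  if idx b m θ x = idx b m θ y then
    ∑ j ∈ J, xorI (x ∈ Epart b m A θ (idx b m θ x) j) (y ∈ Epart b m A θ (idx b m θ x) j)
  else 2 * L

/-- the contribution of the cell `i` -/
noncomputable def hc (b : ℕ) (J : Finset ℕ) (A : ℕ → Finset ℕ) (L : ℕ) (m : ℕ) (θ : ℝ) (i : ℤ)
    (z : ℝ × ℝ) : ℝ≥0∞ :=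
  ∑ j ∈ J, xorI (z.1 ∈ Epart b m A θ i j) (z.2 ∈ Epart b m A θ i j) +
    L * xorI (idx b m θ z.1 = i) (idx b m θ z.2 = i)

lemma measurable_hc (L m : ℕ) (θ : ℝ) (i : ℤ) : Measurable (hc b J A L m θ i) := by
  unfold hc
  refine Measurable.add ?_ ?_
  · refine Finset.measurable_sum _ fun j _ => ?_
    exact measurable_xorI (measurable_fst (measurableSet_Epart m θ i j))
      (measurable_snd (measurableSet_Epart m θ i j))
  · refine Measurable.const_mul ?_ _
    exact measurable_xorI (((measurable_idx m θ).comp measurable_fst) (measurableSet_singleton i))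
      (((measurable_idx m θ).comp measurable_snd) (measurableSet_singleton i))

/-- overlap of the test sets -/
def Overlap (b : ℕ) (J : Finset ℕ) (A : ℕ → Finset ℕ) (L : ℕ) : Prop :=
  (∀ j ∈ J, A j ⊆ Finset.range b) ∧ ∀ c < b, (J.filter fun j => c ∈ A j).card ≤ L

lemma overlap_sum {L : ℕ} (hO : Overlap b J A L) (p : ℕ → ℝ) (hp : ∀ c, 0 ≤ p c) :
    ∑ j ∈ J, ∑ c ∈ A j, p c ≤ L * ∑ c ∈ Finset.range b, p c := by
  classical
  have h1 : ∀ j ∈ J, ∑ c ∈ A j, p c = ∑ c ∈ Finset.range b, if c ∈ A j then p c else 0 := by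
    intro j hj
    rw [← Finset.sum_filter]
    congr 1
    ext c
    simp only [Finset.mem_filter]
    exact ⟨fun h => ⟨hO.1 j hj h, h⟩, fun h => h.2⟩
  rw [Finset.sum_congr rfl h1, Finset.sum_comm, Finset.mul_sum]
  refine Finset.sum_le_sum fun c hc => ?_
  rw [← Finset.sum_filter, Finset.sum_const, nsmul_eq_mul]
  have := hO.2 c (Finset.mem_range.1 hc)
  exact mul_le_mul_of_nonneg_right (by exact_mod_cast this) (hp c)

lemma hc_tsum (hb : 0 < b) {L : ℕ} (hO : Overlap b J A L) (W : ℤ → ℝ≥0∞) (m : ℕ) (θ : ℝ)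
    (z : ℝ × ℝ) :
    ∑' i, W i * hc b J A L m θ i z ≤
      (W (idx b m θ z.1) + W (idx b m θ z.2)) * Nx b J A L m θ z.1 z.2 := by
  classical
  have h0 : ∀ i ∉ ({idx b m θ z.1, idx b m θ z.2} : Finset ℤ), W i * hc b J A L m θ i z = 0 := by
    intro i hi
    simp only [Finset.mem_insert, Finset.mem_singleton, not_or] at hi
    have h1 : hc b J A L m θ i z = 0 := by
      unfold hc
      have h2 : ∀ j ∈ J, xorI (z.1 ∈ Epart b m A θ i j) (z.2 ∈ Epart b m A θ i j) = 0 := by
        intro j hj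
        have h3 : z.1 ∉ Epart b m A θ i j := fun h =>
          hi.1 (Epart_sub hb m (hO.1 j hj) h).symm
        have h4 : z.2 ∉ Epart b m A θ i j := fun h =>
          hi.2 (Epart_sub hb m (hO.1 j hj) h).symm
        unfold xorI
        simp [h3, h4]
      rw [Finset.sum_eq_zero h2, zero_add]
      unfold xorI
      simp [Ne.symm hi.1, Ne.symm hi.2]
    rw [h1, mul_zero]
  rw [tsum_eq_sum h0]
  by_cases hI : idx b m θ z.1 = idx b m θ z.2
  · rw [← hI]
    simp only [Finset.pair_eq_singleton, Finset.sum_singleton]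
    unfold Nx hc
    rw [if_pos hI, ← hI, xorI_self, mul_zero, add_zero]
    gcongr
    exact le_self_add
  · rw [Finset.sum_pair hI, add_mul]
    have hcard : ∀ (w : ℝ) (i : ℤ), i = idx b m θ w →
        ((J.filter fun j => w ∈ Epart b m A θ i j).card : ℝ≥0∞) ≤ L := by
      intro w i hi
      have hi' := (idx_child hb m θ w i).1 hi.symm
      obtain ⟨c, hc⟩ : ∃ c : ℕ, (c : ℤ) = idx b (m + 1) θ w - b * i :=
        ⟨(idx b (m + 1) θ w - b * i).toNat, Int.toNat_of_nonneg (by omega)⟩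
      have hcb : c < b := by
        rw [mul_add, mul_one] at hi'
        omega
      have h5 : (J.filter fun j => w ∈ Epart b m A θ i j) ⊆ J.filter fun j => c ∈ A j := by
        intro j hj
        rw [Finset.mem_filter] at hj ⊢
        refine ⟨hj.1, ?_⟩
        obtain ⟨c', hc', h6⟩ := hj.2
        have : c = c' := by omega
        rw [this]
        exact hc'
      exact_mod_cast (Finset.card_le_card h5).trans (hO.2 c hcb)
    have hN : Nx b J A L m θ z.1 z.2 = 2 * L := by
      unfold Nx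
      rw [if_neg hI]
    have hL2 : (2 : ℝ≥0∞) * L = L + L * 1 := by ring
    rw [hN, hL2]
    gcongr
    · unfold hc
      gcongr
      · refine le_trans ?_ (hcard z.1 _ rfl)
        have h6 : ∀ j ∈ J, xorI (z.1 ∈ Epart b m A θ (idx b m θ z.1) j)
            (z.2 ∈ Epart b m A θ (idx b m θ z.1) j) ≤
            if z.1 ∈ Epart b m A θ (idx b m θ z.1) j then 1 else 0 := by
          intro j hj
          have h7 : z.2 ∉ Epart b m A θ (idx b m θ z.1) j := fun h =>
            hI (Epart_sub hb m (hO.1 j hj) h).symm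
          unfold xorI
          simp [h7]
        refine (Finset.sum_le_sum h6).trans ?_
        rw [← Finset.sum_filter, Finset.sum_const, nsmul_eq_mul, mul_one]
      · exact xorI_le_one _ _
    · unfold hc
      gcongr
      · refine le_trans ?_ (hcard z.2 _ rfl)
        have h6 : ∀ j ∈ J, xorI (z.1 ∈ Epart b m A θ (idx b m θ z.2) j)
            (z.2 ∈ Epart b m A θ (idx b m θ z.2) j) ≤
            if z.2 ∈ Epart b m A θ (idx b m θ z.2) j then 1 else 0 := by
          intro j hj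
          have h7 : z.1 ∉ Epart b m A θ (idx b m θ z.2) j := fun h =>
            hI (Epart_sub hb m (hO.1 j hj) h)
          unfold xorI
          simp [h7]
        refine (Finset.sum_le_sum h6).trans ?_
        rw [← Finset.sum_filter, Finset.sum_const, nsmul_eq_mul, mul_one]
      · exact xorI_le_one _ _

/-- the node inequality -/
lemma node_le (hb : 0 < b) (R : Rule b J A κ) {L : ℕ} (hO : Overlap b J A L)
    (P Q : Measure ℝ) [IsProbabilityMeasure P] [IsProbabilityMeasure Q] {π : Measure (ℝ × ℝ)}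
    (h1 : π.map Prod.fst = P) (h2 : π.map Prod.snd = Q) (m : ℕ) (θ : ℝ) (i : ℤ) :
    mu {u | Ix R P m θ u = i ∧ Ix R Q m θ u = i} *
      ∫⁻ v, κ (R.S (cw P b m i θ) v) (R.S (cw Q b m i θ) v) ∂leb ≤
      ∫⁻ z, hc b J A L m θ i z ∂π := by
  have hmin : mu {u | Ix R P m θ u = i ∧ Ix R Q m θ u = i} ≤
      ENNReal.ofReal (min (pm P b m i θ) (pm Q b m i θ)) := by
    rw [ENNReal.ofReal_min, ← Ix_law hb R P θ m i, ← Ix_law hb R Q θ m i]
    exact le_min (measure_mono fun u hu => hu.1) (measure_mono fun u hu => hu.2)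
  by_cases hp : pm P b m i θ = 0
  · have : min (pm P b m i θ) (pm Q b m i θ) = 0 := by
      rw [hp]
      exact min_eq_left (pm_nonneg hb Q _ _ _)
    rw [this, ENNReal.ofReal_zero] at hmin
    rw [le_antisymm hmin bot_le]
    simp
  by_cases hq : pm Q b m i θ = 0
  · have : min (pm P b m i θ) (pm Q b m i θ) = 0 := by
      rw [hq]
      exact min_eq_right (pm_nonneg hb P _ _ _)
    rw [this, ENNReal.ofReal_zero] at hmin
    rw [le_antisymm hmin bot_le]
    simp
  have hPc : ∀ j ∈ J, ∑ c ∈ A j, cw P b m i θ c =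
      (∑ c ∈ A j, pm P b (m + 1) (b * i + c) θ) / pm P b m i θ := by
    intro j _
    unfold cw
    simp only [hp, if_false]
    rw [Finset.sum_div]
  have hQc : ∀ j ∈ J, ∑ c ∈ A j, cw Q b m i θ c =
      (∑ c ∈ A j, pm Q b (m + 1) (b * i + c) θ) / pm Q b m i θ := by
    intro j _
    unfold cw
    simp only [hq, if_false]
    rw [Finset.sum_div]
  refine (mul_le_mul' hmin (R.cost _ _ (cw_pv hb P m i θ) (cw_pv hb Q m i θ))).trans ?_
  have h3 : ENNReal.ofReal (min (pm P b m i θ) (pm Q b m i θ)) *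
      ∑ j ∈ J, ENNReal.ofReal |∑ c ∈ A j, cw P b m i θ c - ∑ c ∈ A j, cw Q b m i θ c| ≤
      ENNReal.ofReal (∑ j ∈ J, |∑ c ∈ A j, pm P b (m + 1) (b * i + c) θ -
        ∑ c ∈ A j, pm Q b (m + 1) (b * i + c) θ| + L * |pm P b m i θ - pm Q b m i θ|) := by
    rw [← ENNReal.ofReal_sum_of_nonneg fun _ _ => abs_nonneg _,
      ← ENNReal.ofReal_mul (le_min (pm_nonneg hb P _ _ _) (pm_nonneg hb Q _ _ _))]
    refine ENNReal.ofReal_le_ofReal ?_
    rw [Finset.sum_congr rfl fun j hj => by rw [hPc j hj, hQc j hj]]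
    refine ratio_sum J L (pm_nonneg hb P _ _ _) (pm_nonneg hb Q _ _ _)
      (fun j => ∑ c ∈ A j, pm P b (m + 1) (b * i + c) θ)
      (fun j => ∑ c ∈ A j, pm Q b (m + 1) (b * i + c) θ)
      (fun j _ => Finset.sum_nonneg fun c _ => pm_nonneg hb P _ _ _)
      (fun j _ => Finset.sum_nonneg fun c _ => pm_nonneg hb Q _ _ _) ?_ ?_ hp hq
    · have := overlap_sum hO (fun c => pm P b (m + 1) (b * i + c) θ)
        fun c => pm_nonneg hb P _ _ _
      rwa [pm_children hb] at this
    · have := overlap_sum hO (fun c => pm Q b (m + 1) (b * i + c) θ)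
        fun c => pm_nonneg hb Q _ _ _
      rwa [pm_children hb] at this
  refine h3.trans ?_
  rw [ENNReal.ofReal_add (Finset.sum_nonneg fun _ _ => abs_nonneg _)
    (mul_nonneg (Nat.cast_nonneg _) (abs_nonneg _)),
    ENNReal.ofReal_sum_of_nonneg fun _ _ => abs_nonneg _, ENNReal.ofReal_mul (Nat.cast_nonneg _),
    ENNReal.ofReal_natCast]
  unfold hc
  rw [lintegral_add_left, lintegral_finsetSum, lintegral_const_mul]
  · gcongr with j hj
    · rw [← real_Epart hb P, ← real_Epart hb Q]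
      exact real_sub_le h1 h2 (measurableSet_Epart m θ i j)
    · rw [← real_idx hb P, ← real_idx hb Q]
      exact real_sub_le h1 h2 (E := {x | idx b m θ x = i})
        (measurable_idx m θ (measurableSet_singleton i))
  · exact measurable_xorI (((measurable_idx m θ).comp measurable_fst) (measurableSet_singleton i))
      (((measurable_idx m θ).comp measurable_snd) (measurableSet_singleton i))
  · intro j _
    exact measurable_xorI (measurable_fst (measurableSet_Epart m θ i j))
      (measurable_snd (measurableSet_Epart m θ i j))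
  · refine Finset.measurable_sum _ fun j _ => ?_
    exact measurable_xorI (measurable_fst (measurableSet_Epart m θ i j))
      (measurable_snd (measurableSet_Epart m θ i j))

/-- **The expected cost of stage `m`.** -/
theorem stage_le (hb : 0 < b) (R : Rule b J A κ) {L : ℕ} (hO : Overlap b J A L)
    (P Q : Measure ℝ) [IsProbabilityMeasure P] [IsProbabilityMeasure Q] {π : Measure (ℝ × ℝ)}
    (h1 : π.map Prod.fst = P) (h2 : π.map Prod.snd = Q) (W : ℤ → ℝ≥0∞) (m : ℕ) (θ : ℝ) :
    ∫⁻ u, stage R P Q W m θ u ∂mu ≤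
      ∫⁻ z, (W (idx b m θ z.1) + W (idx b m θ z.2)) * Nx b J A L m θ z.1 z.2 ∂π := by
  classical
  have hstage : ∀ u, stage R P Q W m θ u =
      ∑' i, (if Ix R P m θ u = i ∧ Ix R Q m θ u = i then (1 : ℝ≥0∞) else 0) *
        (W i * κ (R.S (cw P b m i θ) (u (m + 1))) (R.S (cw Q b m i θ) (u (m + 1)))) := by
    intro u
    unfold stage
    split_ifs with h
    · rw [tsum_eq_single (Ix R P m θ u)]
      · rw [if_pos ⟨rfl, h.symm⟩, one_mul, ← h]
      · intro i hi
        rw [if_neg fun h' => hi h'.1.symm, zero_mul]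
    · symm
      rw [ENNReal.tsum_eq_zero]
      intro i
      rw [if_neg fun h' => h (h'.1.trans h'.2.symm), zero_mul]
  have hκm : ∀ i, Measurable fun v : ℝ =>
      W i * κ (R.S (cw P b m i θ) v) (R.S (cw Q b m i θ) v) := by
    intro i
    refine Measurable.const_mul ?_ _
    have hS1 : Measurable fun v : ℝ => R.S (cw P b m i θ) v :=
      R.meas.comp (measurable_const.prodMk measurable_id)
    have hS2 : Measurable fun v : ℝ => R.S (cw Q b m i θ) v :=
      R.meas.comp (measurable_const.prodMk measurable_id)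
    exact (Measurable.of_discrete (f := fun p : ℕ × ℕ => κ p.1 p.2)).comp (hS1.prodMk hS2)
  have hset : ∀ i, MeasurableSet {u | Ix R P m θ u = i ∧ Ix R Q m θ u = i} := fun i =>
    (measurable_Ix' hb R P m θ (measurableSet_singleton i)).inter
      (measurable_Ix' hb R Q m θ (measurableSet_singleton i))
  have hm1 : ∀ i, Measurable fun u : ℕ → ℝ =>
      (if Ix R P m θ u = i ∧ Ix R Q m θ u = i then (1 : ℝ≥0∞) else 0) := fun i =>
    Measurable.ite (hset i) measurable_const measurable_const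
  simp_rw [hstage]
  rw [lintegral_tsum]
  swap
  · intro i
    exact ((hm1 i).mul ((hκm i).comp (measurable_pi_apply (m + 1)))).aemeasurable
  have hterm : ∀ i, ∫⁻ u, (if Ix R P m θ u = i ∧ Ix R Q m θ u = i then (1 : ℝ≥0∞) else 0) *
      (W i * κ (R.S (cw P b m i θ) (u (m + 1))) (R.S (cw Q b m i θ) (u (m + 1)))) ∂mu ≤
      ∫⁻ z, W i * hc b J A L m θ i z ∂π := by
    intro i
    have hind : IndepFun
        (fun u => (if Ix R P m θ u = i ∧ Ix R Q m θ u = i then (1 : ℝ≥0∞) else 0))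
        (fun u : ℕ → ℝ => u (m + 1)) mu := by
      refine indep_next m _ (hm1 i) fun u u' h => ?_
      rw [Ix_congr R P m θ h, Ix_congr R Q m θ h]
    have hind2 := hind.comp (φ := id) measurable_id (hκm i)
    have h3 := lintegral_mul_eq_lintegral_mul_lintegral_of_indepFun (hm1 i)
      ((hκm i).comp (measurable_pi_apply (m + 1))) hind2
    have h4 : ∫⁻ u, (if Ix R P m θ u = i ∧ Ix R Q m θ u = i then (1 : ℝ≥0∞) else 0) *
        (W i * κ (R.S (cw P b m i θ) (u (m + 1))) (R.S (cw Q b m i θ) (u (m + 1)))) ∂mu =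
        (∫⁻ u, (if Ix R P m θ u = i ∧ Ix R Q m θ u = i then (1 : ℝ≥0∞) else 0) ∂mu) *
        ∫⁻ u : ℕ → ℝ, (W i * κ (R.S (cw P b m i θ) (u (m + 1)))
          (R.S (cw Q b m i θ) (u (m + 1)))) ∂mu := h3
    rw [h4]
    have h5 : ∫⁻ u, (if Ix R P m θ u = i ∧ Ix R Q m θ u = i then (1 : ℝ≥0∞) else 0) ∂mu =
        mu {u | Ix R P m θ u = i ∧ Ix R Q m θ u = i} := by
      rw [← lintegral_indicator_one (hset i)]
      refine lintegral_congr fun z => ?_
      simp only [indicator, mem_ofPred_eq, Pi.one_apply]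
    have h6 : ∫⁻ u : ℕ → ℝ, (W i * κ (R.S (cw P b m i θ) (u (m + 1)))
          (R.S (cw Q b m i θ) (u (m + 1)))) ∂mu =
        ∫⁻ v, W i * κ (R.S (cw P b m i θ) v) (R.S (cw Q b m i θ) v) ∂leb := by
      have h7 : mu.map (fun u : ℕ → ℝ => u (m + 1)) = leb :=
        Measure.infinitePi_map_eval (fun _ : ℕ => leb) (m + 1)
      conv_rhs => rw [← h7]
      rw [lintegral_map (hκm i) (measurable_pi_apply (m + 1))]
    rw [h5, h6, lintegral_const_mul, lintegral_const_mul _ (measurable_hc L m θ i)]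
    · rw [mul_left_comm]
      gcongr
      exact node_le hb R hO P Q h1 h2 m θ i
    · have hS1 : Measurable fun v : ℝ => R.S (cw P b m i θ) v :=
        R.meas.comp (measurable_const.prodMk measurable_id)
      have hS2 : Measurable fun v : ℝ => R.S (cw Q b m i θ) v :=
        R.meas.comp (measurable_const.prodMk measurable_id)
      exact (Measurable.of_discrete (f := fun p : ℕ × ℕ => κ p.1 p.2)).comp (hS1.prodMk hS2)
  refine (ENNReal.tsum_le_tsum hterm).trans ?_
  rw [← lintegral_tsum fun i => ((measurable_hc L m θ i).const_mul _).aemeasurable]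
  exact lintegral_mono fun z => hc_tsum hb hO W m θ z

end Pool.Agent.K1H26.PC
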