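import Mathlib
import Pool.Agent.K1H26.PC.Cost

/-!
# From a good choice of parameters to a coupling
-/

set_option autoImplicit false
set_option maxHeartbeats 4000000

open MeasureTheory Set ProbabilityTheory Filter
open scoped NNReal ENNReal Topology

namespace Pool.Agent.K1H26.PC

open Pool.Agent.R972.PC

variable {b : ℕ} {J : Finset ℕ} {A : ℕ → Finset ℕ} {κ : ℕ → ℕ → ℝ≥0∞}

/-! ### the top selection -/

lemma sum_Ioc_telescope (φ : ℤ → ℝ) {k l : ℤ} (h : k ≤ l) :
    ∑ j ∈ Finset.Ioc k l, (φ j - φ (j - 1)) = φ l - φ k := by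
  obtain ⟨n, rfl⟩ := Int.le.dest h
  clear h
  induction n with
  | zero => simp
  | succ n ih =>
    have h1 : Finset.Ioc k (k + ((n + 1 : ℕ) : ℤ)) =
        insert (k + ((n + 1 : ℕ) : ℤ)) (Finset.Ioc k (k + n)) := by
      ext j
      simp only [Finset.mem_Ioc, Finset.mem_insert]
      push_cast
      omega
    rw [h1, Finset.sum_insert, ih]
    · push_cast
      rw [show k + ((n : ℤ) + 1) - 1 = k + n by ring]
      ring
    · simp only [Finset.mem_Ioc, not_and, not_le]
      intro _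
      push_cast
      omega

lemma xorI_comm (p q : Prop) : xorI p q = xorI q p := by
  unfold xorI
  split_ifs <;> first | rfl | (exfalso; tauto)

lemma ofReal_sub_tsum (φ : ℤ → ℝ) (hφ : Monotone φ) (k l : ℤ) :
    ENNReal.ofReal |φ k - φ l| =
      ∑' j, ENNReal.ofReal (φ j - φ (j - 1)) * xorI (j ≤ k) (j ≤ l) := by
  classical
  wlog h : k ≤ l generalizing k l
  · have h1 := this l k (le_of_not_ge h)
    rw [abs_sub_comm, h1]
    simp_rw [xorI_comm]
  · have h0 : ∀ j ∉ Finset.Ioc k l, ENNReal.ofReal (φ j - φ (j - 1)) * xorI (j ≤ k) (j ≤ l) = 0 := by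
      intro j hj
      rw [Finset.mem_Ioc] at hj
      have : xorI (j ≤ k) (j ≤ l) = 0 := by
        unfold xorI
        rw [if_neg]
        omega
      rw [this, mul_zero]
    rw [tsum_eq_sum h0]
    have h2 : ∀ j ∈ Finset.Ioc k l, ENNReal.ofReal (φ j - φ (j - 1)) * xorI (j ≤ k) (j ≤ l) =
        ENNReal.ofReal (φ j - φ (j - 1)) := by
      intro j hj
      rw [Finset.mem_Ioc] at hj
      have : xorI (j ≤ k) (j ≤ l) = 1 := by
        unfold xorI
        rw [if_pos]
        omega
      rw [this, mul_one]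
    rw [Finset.sum_congr rfl h2, ← ENNReal.ofReal_sum_of_nonneg, sum_Ioc_telescope φ h]
    · congr 1
      rw [abs_sub_comm, abs_of_nonneg]
      have := hφ h
      linarith
    · intro j _
      have := hφ (by omega : j - 1 ≤ j)
      linarith

lemma le_top_iff (hb : 0 < b) (P : Measure ℝ) [IsProbabilityMeasure P] (θ : ℝ) {u : ℝ}
    (hu : 0 < u ∧ u < 1) (j : ℤ) : j ≤ top P b θ u ↔ lm P (gp b 0 j θ) ≤ u := by
  obtain ⟨k, hk⟩ := exists_topSet (b := b) P θ hu
  rw [top_eq hb P hk]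
  constructor
  · intro h
    exact (lm_mono P (gp_le hb 0 h θ)).trans hk.1
  · intro h
    by_contra hlt
    have h1 := lm_mono P (gp_le hb 0 (by omega : k + 1 ≤ j) θ)
    have h2 := hk.2
    simp only at h2
    linarith

lemma xor_ite (p q : Prop) [Decidable p] [Decidable q] :
    xorI p q = ENNReal.ofReal |(if p then (1 : ℝ) else 0) - (if q then (1 : ℝ) else 0)| := by
  unfold xorI
  by_cases hp : p <;> by_cases hq : q <;> simp [hp, hq]

lemma measurable_top' (hb : 0 < b) (P : Measure ℝ) [IsProbabilityMeasure P] (θ : ℝ) :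
    Measurable fun v : ℝ => top P b θ v :=
  (measurable_top hb P).comp (measurable_const.prodMk measurable_id)

/-- **The top selection is a monotone rearrangement, hence optimal for monotone costs.** -/
theorem top_cost (hb : 0 < b) (P Q : Measure ℝ) [IsProbabilityMeasure P] [IsProbabilityMeasure Q]
    {π : Measure (ℝ × ℝ)} (h1 : π.map Prod.fst = P) (h2 : π.map Prod.snd = Q)
    (φ : ℤ → ℝ) (hφ : Monotone φ) (θ : ℝ) :
    ∫⁻ v, ENNReal.ofReal |φ (top P b θ v) - φ (top Q b θ v)| ∂leb ≤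
      ∫⁻ z, ENNReal.ofReal |φ (idx b 0 θ z.1) - φ (idx b 0 θ z.2)| ∂π := by
  classical
  simp_rw [ofReal_sub_tsum φ hφ]
  rw [lintegral_tsum, lintegral_tsum]
  · refine ENNReal.tsum_le_tsum fun j => ?_
    rw [lintegral_const_mul', lintegral_const_mul']
    · gcongr
      have h3 : ∫⁻ v, xorI (j ≤ top P b θ v) (j ≤ top Q b θ v) ∂leb =
          ∫⁻ v, ENNReal.ofReal |(if lm P (gp b 0 j θ) ≤ v then (1 : ℝ) else 0) -
            (if lm Q (gp b 0 j θ) ≤ v then (1 : ℝ) else 0)| ∂leb := by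
        refine lintegral_congr_ae ?_
        filter_upwards [leb_pos_ae] with v hv
        rw [xor_ite]
        simp_rw [le_top_iff hb P θ hv, le_top_iff hb Q θ hv]
      rw [h3]
      refine (lint_threshold _ _).trans ?_
      have h4 := real_sub_le h1 h2 (measurableSet_Iio (a := gp b 0 j θ))
      refine h4.trans_eq ?_
      refine lintegral_congr fun z => ?_
      rw [xor_ite, xor_ite]
      simp_rw [le_idx_iff hb, mem_Iio, ← not_le]
      by_cases h5 : gp b 0 j θ ≤ z.1 <;> by_cases h6 : gp b 0 j θ ≤ z.2 <;> simp [h5, h6]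
    · exact ENNReal.ofReal_ne_top
    · exact ENNReal.ofReal_ne_top
  · intro j
    refine (Measurable.const_mul ?_ _).aemeasurable
    exact measurable_xorI (((measurable_idx 0 θ).comp measurable_fst) measurableSet_Ici)
      (((measurable_idx 0 θ).comp measurable_snd) measurableSet_Ici)
  · intro j
    refine (Measurable.const_mul ?_ _).aemeasurable
    exact measurable_xorI (measurable_top' hb P θ measurableSet_Ici)
      (measurable_top' hb Q θ measurableSet_Ici)

/-! ### measurability of a stage -/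

lemma measurable_stage (hb : 0 < b) (R : Rule b J A κ) (P Q : Measure ℝ)
    [IsProbabilityMeasure P] [IsProbabilityMeasure Q] (W : ℤ → ℝ≥0∞) (m : ℕ) (θ : ℝ) :
    Measurable (stage R P Q W m θ) := by
  classical
  unfold stage
  refine Measurable.ite ?_ ?_ measurable_const
  · exact measurableSet_eq_fun (measurable_Ix' hb R P m θ) (measurable_Ix' hb R Q m θ)
  · refine Measurable.mul ?_ ?_
    · exact (Measurable.of_discrete (f := W)).comp (measurable_Ix' hb R P m θ)
    · have hS : ∀ P' : Measure ℝ, Measurable fun q : ℤ × ℝ => R.S (cw P' b m q.1 θ) q.2 := by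
        intro P'
        refine measurable_from_prod_countable_right fun i => ?_
        have h3 : Measurable fun v : ℝ => R.S (cw P' b m i θ) v :=
          R.meas.comp (measurable_const.prodMk measurable_id)
        exact h3
      have he : Measurable fun u : ℕ → ℝ => u (m + 1) := measurable_pi_apply (m + 1)
      have hP1 : Measurable fun u : ℕ → ℝ => (Ix R P m θ u, u (m + 1)) :=
        (measurable_Ix' hb R P m θ).prodMk he
      have hQ1 : Measurable fun u : ℕ → ℝ => (Ix R Q m θ u, u (m + 1)) :=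
        (measurable_Ix' hb R Q m θ).prodMk he
      have h1 := (hS P).comp hP1
      have h2 := (hS Q).comp hQ1
      exact (Measurable.of_discrete (f := fun p : ℕ × ℕ => κ p.1 p.2)).comp (h1.prodMk h2)

/-! ### the hypotheses on the parameters -/

/-- A good choice of parameters. -/
structure Good (b : ℕ) (J : Finset ℕ) (A : ℕ → Finset ℕ) (κ : ℕ → ℕ → ℝ≥0∞) (L : ℕ) (q : ℝ)
    (Ψ : ℝ ≃ₜ ℝ) (φ : ℝ → ℤ → ℝ) (W : ℕ → ℝ → ℤ → ℝ≥0∞) (C : ℝ≥0∞) (F : ℝ → ℝ × ℝ → ℝ≥0∞)
    (K : ℝ≥0) : Prop where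
  q_pos : 0 < q
  one_lt : 1 < b
  overlap : Overlap b J A L
  mono : ∀ θ, Monotone (φ θ)
  atTop : ∀ (θ : ℝ) (k l : ℤ) (x y : ℝ), k ≠ l → gp b 0 k θ ≤ x → x ≤ gp b 0 (k + 1) θ →
    gp b 0 l θ ≤ y → y ≤ gp b 0 (l + 1) θ →
    ENNReal.ofReal (|Ψ x - Ψ y| ^ q) ≤ C * ENNReal.ofReal |φ θ k - φ θ l|
  atNode : ∀ (θ : ℝ) (m : ℕ) (i : ℤ) (c c' : ℕ) (x y : ℝ), c < b → c' < b → c ≠ c' →
    gp b (m + 1) (b * i + c) θ ≤ x → x ≤ gp b (m + 1) (b * i + c + 1) θ →
    gp b (m + 1) (b * i + c') θ ≤ y → y ≤ gp b (m + 1) (b * i + c' + 1) θ →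
    ENNReal.ofReal (|Ψ x - Ψ y| ^ q) ≤ W m θ i * κ c c'
  bound : ∀ (θ : ℝ) (z : ℝ × ℝ), C * ENNReal.ofReal |φ θ (idx b 0 θ z.1) - φ θ (idx b 0 θ z.2)| +
    ∑' m, (W m θ (idx b m θ z.1) + W m θ (idx b m θ z.2)) * Nx b J A L m θ z.1 z.2 ≤ F θ z
  meas : Measurable (fun p : ℝ × (ℝ × ℝ) => F p.1 p.2)
  avg : ∀ z : ℝ × ℝ, ∫⁻ θ, F θ z ∂leb ≤ K * ENNReal.ofReal (|Ψ z.1 - Ψ z.2| ^ q)

variable {L : ℕ} {q : ℝ} {Ψ : ℝ ≃ₜ ℝ} {φ : ℝ → ℤ → ℝ} {W : ℕ → ℝ → ℤ → ℝ≥0∞} {C : ℝ≥0∞}
  {F : ℝ → ℝ × ℝ → ℝ≥0∞} {K : ℝ≥0}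

/-- The path inequality. -/
lemma path_le (hG : Good b J A κ L q Ψ φ W C F K) (R : Rule b J A κ) (P Q : Measure ℝ) (θ : ℝ)
    (u : ℕ → ℝ) :
    ENNReal.ofReal (|Ψ (Xl R P θ u) - Ψ (Xl R Q θ u)| ^ q) ≤
      C * ENNReal.ofReal |φ θ (top P b θ (u 0)) - φ θ (top Q b θ (u 0))| +
        ∑' m, stage R P Q (W m θ) m θ u := by
  classical
  have hb : 0 < b := by have := hG.one_lt; omega
  by_cases h : ∃ m, Ix R P m θ u ≠ Ix R Q m θ u
  · obtain ⟨n, hn, hmin⟩ : ∃ n, Ix R P n θ u ≠ Ix R Q n θ u ∧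
        ∀ k < n, Ix R P k θ u = Ix R Q k θ u :=
      ⟨Nat.find h, Nat.find_spec h, fun k hk => not_not.1 (Nat.find_min h hk)⟩
    rcases n with _ | m
    · refine le_trans ?_ le_self_add
      exact hG.atTop θ _ _ _ _ hn (le_Xl hb R P θ u 0) (Xl_le hb R P θ u 0)
        (le_Xl hb R Q θ u 0) (Xl_le hb R Q θ u 0)
    · refine le_trans ?_ le_add_self
      refine le_trans ?_ (ENNReal.le_tsum m)
      have h1 := hmin m (by omega)
      unfold stage
      rw [if_pos h1]
      have h2 := le_Xl hb R P θ u (m + 1)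
      have h3 := Xl_le hb R P θ u (m + 1)
      have h4 := le_Xl hb R Q θ u (m + 1)
      have h5 := Xl_le hb R Q θ u (m + 1)
      rw [Ix_succ] at h2 h3 h4 h5
      rw [Ix_succ, Ix_succ, h1] at hn
      rw [h1] at h2 h3 ⊢
      refine hG.atNode θ m _ _ _ _ _ (R.lt _ _) (R.lt _ _) ?_ h2 h3 h4 h5
      intro h6
      exact hn (by rw [h6])
  · push Not at h
    have h1 : Xl R P θ u = Xl R Q θ u := by
      unfold Xl
      simp_rw [h]
    rw [h1, sub_self, abs_zero, Real.zero_rpow hG.q_pos.ne', ENNReal.ofReal_zero]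
    exact bot_le

/-- the expected cost for a fixed grid -/
lemma fixed_le (hG : Good b J A κ L q Ψ φ W C F K) (R : Rule b J A κ) (P Q : Measure ℝ)
    [IsProbabilityMeasure P] [IsProbabilityMeasure Q] {π : Measure (ℝ × ℝ)}
    (h1 : π.map Prod.fst = P) (h2 : π.map Prod.snd = Q) (θ : ℝ) :
    ∫⁻ u, ENNReal.ofReal (|Ψ (Xl R P θ u) - Ψ (Xl R Q θ u)| ^ q) ∂mu ≤ ∫⁻ z, F θ z ∂π := by
  have hb : 0 < b := by have := hG.one_lt; omega
  refine (lintegral_mono fun u => path_le hG R P Q θ u).trans ?_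
  have hm0 : Measurable fun v : ℝ =>
      C * ENNReal.ofReal |φ θ (top P b θ v) - φ θ (top Q b θ v)| := by
    refine Measurable.const_mul (ENNReal.measurable_ofReal.comp ?_) _
    exact (((Measurable.of_discrete (f := φ θ)).comp (measurable_top' hb P θ)).sub
      ((Measurable.of_discrete (f := φ θ)).comp (measurable_top' hb Q θ))).abs
  have hm1 : ∀ m, Measurable (stage R P Q (W m θ) m θ) := fun m =>
    measurable_stage hb R P Q (W m θ) m θ
  have hm0' : Measurable fun u : ℕ → ℝ =>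
      C * ENNReal.ofReal |φ θ (top P b θ (u 0)) - φ θ (top Q b θ (u 0))| := by
    have he : Measurable fun u : ℕ → ℝ => u 0 := measurable_pi_apply 0
    exact hm0.comp he
  rw [lintegral_add_left hm0', lintegral_tsum fun m => (hm1 m).aemeasurable]
  have h3 : ∫⁻ u : ℕ → ℝ, C * ENNReal.ofReal |φ θ (top P b θ (u 0)) - φ θ (top Q b θ (u 0))| ∂mu =
      ∫⁻ v, C * ENNReal.ofReal |φ θ (top P b θ v) - φ θ (top Q b θ v)| ∂leb := by
    have h7 : mu.map (fun u : ℕ → ℝ => u 0) = leb :=
      Measure.infinitePi_map_eval (fun _ : ℕ => leb) 0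
    conv_rhs => rw [← h7]
    rw [lintegral_map hm0 (measurable_pi_apply 0)]
  rw [h3]
  have hmi : ∀ m, Measurable fun z : ℝ × ℝ =>
      (W m θ (idx b m θ z.1) + W m θ (idx b m θ z.2)) * Nx b J A L m θ z.1 z.2 := by
    intro m
    have ha : Measurable fun z : ℝ × ℝ => idx b m θ z.1 := (measurable_idx m θ).comp measurable_fst
    have hc : Measurable fun z : ℝ × ℝ => idx b m θ z.2 := (measurable_idx m θ).comp measurable_snd
    refine Measurable.mul ?_ ?_
    · exact ((Measurable.of_discrete (f := W m θ)).comp ha).add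
        ((Measurable.of_discrete (f := W m θ)).comp hc)
    · unfold Nx
      refine Measurable.ite (measurableSet_eq_fun ha hc) ?_ measurable_const
      refine Finset.measurable_sum _ fun j _ => ?_
      have h9 : Measurable fun p : ℤ × (ℝ × ℝ) =>
          xorI (p.2.1 ∈ Epart b m A θ p.1 j) (p.2.2 ∈ Epart b m A θ p.1 j) := by
        refine measurable_from_prod_countable_right fun i => ?_
        exact measurable_xorI (measurable_fst (measurableSet_Epart m θ i j))
          (measurable_snd (measurableSet_Epart m θ i j))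
      exact h9.comp (ha.prodMk measurable_id)
  have h4 : ∫⁻ v, C * ENNReal.ofReal |φ θ (top P b θ v) - φ θ (top Q b θ v)| ∂leb ≤
      ∫⁻ z, C * ENNReal.ofReal |φ θ (idx b 0 θ z.1) - φ θ (idx b 0 θ z.2)| ∂π := by
    have hm2 : Measurable fun v : ℝ => ENNReal.ofReal |φ θ (top P b θ v) - φ θ (top Q b θ v)| :=
      ENNReal.measurable_ofReal.comp
        (((Measurable.of_discrete (f := φ θ)).comp (measurable_top' hb P θ)).sub
        ((Measurable.of_discrete (f := φ θ)).comp (measurable_top' hb Q θ))).abs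
    have hm3 : Measurable fun z : ℝ × ℝ =>
        ENNReal.ofReal |φ θ (idx b 0 θ z.1) - φ θ (idx b 0 θ z.2)| :=
      ENNReal.measurable_ofReal.comp
        (((Measurable.of_discrete (f := φ θ)).comp ((measurable_idx 0 θ).comp measurable_fst)).sub
        ((Measurable.of_discrete (f := φ θ)).comp
          ((measurable_idx 0 θ).comp measurable_snd))).abs
    rw [lintegral_const_mul _ hm2, lintegral_const_mul _ hm3]
    gcongr
    exact top_cost hb P Q h1 h2 (φ θ) (hG.mono θ) θ
  refine (add_le_add h4 (ENNReal.tsum_le_tsum fun m =>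
    stage_le hb R hG.overlap P Q h1 h2 (W m θ) m θ)).trans ?_
  rw [← lintegral_tsum fun m => (hmi m).aemeasurable]
  refine le_trans (le_lintegral_add _ _) ?_
  exact lintegral_mono fun z => hG.bound θ z

/-- the expected cost over the random grid -/
lemma total_le (hG : Good b J A κ L q Ψ φ W C F K) (R : Rule b J A κ) (P Q : Measure ℝ)
    [IsProbabilityMeasure P] [IsProbabilityMeasure Q] {π : Measure (ℝ × ℝ)}
    (h1 : π.map Prod.fst = P) (h2 : π.map Prod.snd = Q) :
    ∫⁻ w, ENNReal.ofReal (|Ψ (Xl R P w.1 w.2) - Ψ (Xl R Q w.1 w.2)| ^ q) ∂(leb.prod mu) ≤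
      K * ∫⁻ z, ENNReal.ofReal (|Ψ z.1 - Ψ z.2| ^ q) ∂π := by
  have hb : 0 < b := by have := hG.one_lt; omega
  have hπ : IsProbabilityMeasure π := by
    refine ⟨?_⟩
    have h3 : (π.map Prod.fst) univ = 1 := by rw [h1]; exact measure_univ
    rwa [Measure.map_apply measurable_fst MeasurableSet.univ, preimage_univ] at h3
  have hΨ : Measurable Ψ := Ψ.continuous.measurable
  have hm : Measurable fun w : ℝ × (ℕ → ℝ) =>
      ENNReal.ofReal (|Ψ (Xl R P w.1 w.2) - Ψ (Xl R Q w.1 w.2)| ^ q) := by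
    refine ENNReal.measurable_ofReal.comp (Measurable.pow_const ?_ _)
    exact ((hΨ.comp (measurable_Xl hb R P)).sub (hΨ.comp (measurable_Xl hb R Q))).abs
  rw [lintegral_prod _ hm.aemeasurable]
  refine (lintegral_mono fun θ => fixed_le hG R P Q h1 h2 θ).trans ?_
  rw [lintegral_lintegral_swap hG.meas.aemeasurable]
  refine (lintegral_mono fun z => hG.avg z).trans ?_
  rw [lintegral_const_mul']
  exact ENNReal.coe_ne_top

/-- law over the random grid -/
lemma total_law (hb : 1 < b) (R : Rule b J A κ) (P : Measure ℝ) [IsProbabilityMeasure P] :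
    (leb.prod mu).map (fun w => Xl R P w.1 w.2) = P := by
  have hb0 : 0 < b := by omega
  ext s hs
  rw [Measure.map_apply (measurable_Xl hb0 R P) hs, Measure.prod_apply (measurable_Xl hb0 R P hs)]
  have h1 : ∀ θ, mu (Prod.mk θ ⁻¹' ((fun w : ℝ × (ℕ → ℝ) => Xl R P w.1 w.2) ⁻¹' s)) = P s := by
    intro θ
    have h2 := Xl_law hb R P θ
    conv_rhs => rw [← h2]
    rw [Measure.map_apply (measurable_Xl' hb0 R P θ) hs]
    rfl
  simp_rw [h1]
  rw [lintegral_const, measure_univ, mul_one]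

/-- transfer to the unit interval -/
lemma exists_transfer : ∃ T : ℝ → ℝ × (ℕ → ℝ), Measurable T ∧ leb.map T = leb.prod mu := by
  obtain ⟨f, hf, hmap⟩ := Measure.exists_measurable_map_eq (leb.prod mu)
  refine ⟨fun x => f (projIcc 0 1 zero_le_one x), hf.comp continuous_projIcc.measurable, ?_⟩
  have h1 : (volume : Measure unitInterval).map (Subtype.val : unitInterval → ℝ) = leb := by
    unfold leb
    exact map_comap_subtype_coe measurableSet_Icc volume
  have h2 : Measurable fun x : ℝ => f (projIcc 0 1 zero_le_one x) :=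
    hf.comp continuous_projIcc.measurable
  have h3 : leb.map (fun x : ℝ => f (projIcc 0 1 zero_le_one x)) = volume.map f := by
    rw [← h1, Measure.map_map h2 measurable_subtype_coe]
    congr 1
    ext x : 1
    simp only [Function.comp, projIcc_val]
  rw [h3, hmap]

/-- **A good choice of parameters and a rule bound the optimal ratio.** -/
theorem optRatio_le (hG : Good b J A κ L q Ψ φ W C F K) (R : Rule b J A κ) (hK : 1 ≤ K) :
    optRatio q ≤ K := by
  have hb : 0 < b := by have := hG.one_lt; omega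
  have hΨ : Measurable Ψ := Ψ.continuous.measurable
  have hΨ' : Measurable Ψ.symm := Ψ.symm.continuous.measurable
  obtain ⟨T, hT, hTm⟩ := exists_transfer
  have hprob : ∀ P : ProbabilityMeasure ℝ, IsProbabilityMeasure ((P : Measure ℝ).map Ψ.symm) :=
    fun P => Measure.isProbabilityMeasure_map hΨ'.aemeasurable
  set X : ProbabilityMeasure ℝ → ℝ → ℝ := fun P r =>
    Ψ (Xl R ((P : Measure ℝ).map Ψ.symm) (T r).1 (T r).2) with hX
  have hXm : ∀ P, Measurable (X P) := fun P => by
    have := hprob P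
    exact hΨ.comp ((measurable_Xl hb R _).comp hT)
  have hcoup : IsCoupling X := by
    refine ⟨fun P => (hXm P).aemeasurable, fun P => ?_⟩
    have := hprob P
    have h1 : leb.map (X P) = ((leb.map T).map (fun w =>
        Xl R ((P : Measure ℝ).map Ψ.symm) w.1 w.2)).map Ψ := by
      rw [Measure.map_map hΨ (measurable_Xl hb R _),
        Measure.map_map (hΨ.comp (measurable_Xl hb R _)) hT]
      rfl
    rw [h1, hTm, total_law hG.one_lt R, Measure.map_map hΨ hΨ']
    have h2 : (Ψ ∘ Ψ.symm) = id := by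
      ext x
      simp
    rw [h2, Measure.map_id]
  refine (iInf₂_le X hcoup).trans ?_
  refine iInf₂_le K ⟨hK, fun P Q => ?_⟩
  have hP := hprob P
  have hQ := hprob Q
  have h3 : ∫⁻ r, ENNReal.ofReal (|X P r - X Q r| ^ q) ∂leb =
      ∫⁻ w, ENNReal.ofReal (|Ψ (Xl R ((P : Measure ℝ).map Ψ.symm) w.1 w.2) -
        Ψ (Xl R ((Q : Measure ℝ).map Ψ.symm) w.1 w.2)| ^ q) ∂(leb.prod mu) := by
    rw [← hTm, lintegral_map _ hT]
    refine ENNReal.measurable_ofReal.comp (Measurable.pow_const ?_ _)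
    exact ((hΨ.comp (measurable_Xl hb R _)).sub (hΨ.comp (measurable_Xl hb R _))).abs
  rw [h3]
  unfold Cstar
  rw [ENNReal.mul_iInf_of_ne (by
    have : (0 : ℝ≥0) < K := lt_of_lt_of_le one_pos hK
    exact_mod_cast this.ne') ENNReal.coe_ne_top]
  refine le_iInf fun π => ?_
  rw [ENNReal.mul_iInf_of_ne (by
    have : (0 : ℝ≥0) < K := lt_of_lt_of_le one_pos hK
    exact_mod_cast this.ne') ENNReal.coe_ne_top]
  refine le_iInf fun hπ => ?_
  have hmm : Measurable (fun p : ℝ × ℝ => (Ψ.symm p.1, Ψ.symm p.2)) :=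
    (hΨ'.comp measurable_fst).prodMk (hΨ'.comp measurable_snd)
  have h4 := total_le hG R ((P : Measure ℝ).map Ψ.symm) ((Q : Measure ℝ).map Ψ.symm)
    (π := π.map (fun p : ℝ × ℝ => (Ψ.symm p.1, Ψ.symm p.2))) ?_ ?_
  · refine h4.trans_eq ?_
    rw [lintegral_map _ hmm]
    · simp only [Homeomorph.apply_symm_apply]
    · refine ENNReal.measurable_ofReal.comp (Measurable.pow_const ?_ _)
      exact ((hΨ.comp measurable_fst).sub (hΨ.comp measurable_snd)).abs
  · rw [Measure.map_map measurable_fst hmm, ← hπ.1, Measure.map_map hΨ' measurable_fst]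
    rfl
  · rw [Measure.map_map measurable_snd hmm, ← hπ.2, Measure.map_map hΨ' measurable_snd]
    rfl

end Pool.Agent.K1H26.PC
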