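import Mathlib
import Pool.Agent.K1H26.PC.Main

/-!
# Averages over the random grid, and the sum over the levels
-/

set_option autoImplicit false
set_option maxHeartbeats 4000000

open MeasureTheory Set ProbabilityTheory Filter
open scoped NNReal ENNReal Topology

namespace Pool.Agent.K1H26.PC

open Pool.Agent.R972.PC

variable {b : ℕ}

/-- indicator of being in different cells of level `m` -/
noncomputable def ne (b m : ℕ) (θ : ℝ) (z : ℝ × ℝ) : ℝ≥0∞ :=
  if idx b m θ z.1 = idx b m θ z.2 then 0 else 1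

/-- number of cells of level `m` between the points -/
noncomputable def dd (b m : ℕ) (θ : ℝ) (z : ℝ × ℝ) : ℝ≥0∞ :=
  ENNReal.ofReal |(idx b m θ z.1 : ℝ) - idx b m θ z.2|

lemma ne_le_one (m : ℕ) (θ : ℝ) (z : ℝ × ℝ) : ne b m θ z ≤ 1 := by
  unfold ne
  split_ifs <;> simp

lemma ne_le_dd (m : ℕ) (θ : ℝ) (z : ℝ × ℝ) : ne b m θ z ≤ dd b m θ z := by
  unfold ne dd
  split_ifs with h
  · exact bot_le
  · rw [← ENNReal.ofReal_one]
    refine ENNReal.ofReal_le_ofReal ?_
    have h1 : (1 : ℤ) ≤ |idx b m θ z.1 - idx b m θ z.2| :=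
      Int.one_le_abs (sub_ne_zero.2 h)
    exact_mod_cast h1

lemma periodic_fract (N : ℕ) : Function.Periodic (fun t : ℝ => Int.fract (t * N)) 1 := by
  intro t
  simp only
  rw [add_mul, one_mul]
  exact Int.fract_add_natCast _ _

lemma intervalIntegrable_fract (x y : ℝ) (N : ℕ) (z : ℝ) :
    IntervalIntegrable (fun θ : ℝ => Int.fract ((z + θ) * N)) volume x y := by
  have h1 : Measurable fun θ : ℝ => Int.fract ((z + θ) * N) := by fun_prop
  refine ⟨?_, ?_⟩
  · refine Measure.integrableOn_of_bounded (M := 1) (by simp) h1.aestronglyMeasurable ?_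
    exact Eventually.of_forall fun θ => by
      rw [Real.norm_eq_abs, abs_of_nonneg (Int.fract_nonneg _)]
      exact (Int.fract_lt_one _).le
  · refine Measure.integrableOn_of_bounded (M := 1) (by simp) h1.aestronglyMeasurable ?_
    exact Eventually.of_forall fun θ => by
      rw [Real.norm_eq_abs, abs_of_nonneg (Int.fract_nonneg _)]
      exact (Int.fract_lt_one _).le

lemma int_fract (N : ℕ) (z : ℝ) :
    ∫ θ in (0 : ℝ)..1, Int.fract ((z + θ) * N) = ∫ θ in (0 : ℝ)..1, Int.fract (θ * N) := by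
  have h1 := intervalIntegral.integral_comp_add_left (a := 0) (b := 1)
    (fun t : ℝ => Int.fract (t * N)) z
  rw [h1, add_zero]
  have h2 := (periodic_fract N).intervalIntegral_add_eq z 0
  rw [zero_add] at h2
  exact h2

lemma avg_idx_aux (m : ℕ) {x y : ℝ} (h : x ≤ y) :
    ∫⁻ θ, ENNReal.ofReal ((idx b m θ y : ℝ) - idx b m θ x) ∂leb =
      ENNReal.ofReal ((b : ℝ) ^ m * (y - x)) := by
  have hN : ∀ θ, (idx b m θ y : ℝ) - idx b m θ x =
      ((b ^ m : ℕ) : ℝ) * (y - x) -
        (Int.fract ((y + θ) * (b ^ m : ℕ)) - Int.fract ((x + θ) * (b ^ m : ℕ))) := by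
    intro θ
    unfold idx
    unfold Int.fract
    push_cast
    ring
  have hi : Integrable (fun θ => (idx b m θ y : ℝ) - idx b m θ x) leb := by
    simp_rw [hN]
    unfold leb
    rw [← IntegrableOn, integrableOn_Icc_iff_integrableOn_Ioc]
    have h1 := (intervalIntegrable_fract 0 1 (b ^ m) y).1
    have h2 := (intervalIntegrable_fract 0 1 (b ^ m) x).1
    exact (integrableOn_const (by simp)).sub (h1.sub h2)
  rw [← ofReal_integral_eq_lintegral_ofReal hi]
  · congr 1
    simp_rw [hN]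
    unfold leb
    rw [integral_Icc_eq_integral_Ioc, ← intervalIntegral.integral_of_le zero_le_one,
      intervalIntegral.integral_sub, intervalIntegral.integral_sub, int_fract, int_fract]
    · simp
    · exact intervalIntegrable_fract _ _ _ _
    · exact intervalIntegrable_fract _ _ _ _
    · exact intervalIntegrable_const
    · exact (intervalIntegrable_fract _ _ _ _).sub (intervalIntegrable_fract _ _ _ _)
  · refine Eventually.of_forall fun θ => ?_
    simp only [Pi.zero_apply, sub_nonneg, Int.cast_le]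
    unfold idx
    refine Int.floor_le_floor ?_
    have : (0 : ℝ) ≤ (b : ℝ) ^ m := by positivity
    nlinarith

lemma idx_mono (m : ℕ) (θ : ℝ) : Monotone (idx b m θ) := by
  intro x y h
  unfold idx
  refine Int.floor_le_floor ?_
  have : (0 : ℝ) ≤ (b : ℝ) ^ m := by positivity
  nlinarith

/-- **The expected number of grid points of level `m` between two points.** -/
lemma avg_dd (m : ℕ) (z : ℝ × ℝ) :
    ∫⁻ θ, dd b m θ z ∂leb = ENNReal.ofReal ((b : ℝ) ^ m * |z.1 - z.2|) := by
  unfold dd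
  rcases le_total z.1 z.2 with h | h
  · rw [abs_sub_comm, abs_of_nonneg (by linarith : 0 ≤ z.2 - z.1), ← avg_idx_aux m h]
    refine lintegral_congr fun θ => ?_
    congr 1
    rw [abs_sub_comm, abs_of_nonneg]
    have := idx_mono (b := b) m θ h
    rw [sub_nonneg]
    exact_mod_cast this
  · rw [abs_of_nonneg (by linarith : 0 ≤ z.1 - z.2), ← avg_idx_aux m h]
    refine lintegral_congr fun θ => ?_
    congr 1
    rw [abs_of_nonneg]
    have := idx_mono (b := b) m θ h
    rw [sub_nonneg]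
    exact_mod_cast this

lemma avg_ne (m : ℕ) (z : ℝ × ℝ) :
    ∫⁻ θ, ne b m θ z ∂leb ≤ ENNReal.ofReal (min 1 ((b : ℝ) ^ m * |z.1 - z.2|)) := by
  rw [ENNReal.ofReal_min]
  refine le_min ?_ ?_
  · refine (lintegral_mono fun θ => ne_le_one m θ z).trans ?_
    simp
  · rw [← avg_dd]
    exact lintegral_mono fun θ => ne_le_dd m θ z

lemma avg_min_dd (m : ℕ) (z : ℝ × ℝ) (B : ℝ) :
    ∫⁻ θ, min (ENNReal.ofReal B) (dd b m θ z) ∂leb ≤
      ENNReal.ofReal (min B ((b : ℝ) ^ m * |z.1 - z.2|)) := by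
  rw [ENNReal.ofReal_min]
  refine le_min ?_ ?_
  · refine (lintegral_mono fun θ => min_le_left _ _).trans ?_
    simp
  · rw [← avg_dd]
    exact lintegral_mono fun θ => min_le_right _ _

lemma measurable_idx_joint (m : ℕ) :
    Measurable fun p : ℝ × ℝ => idx b m p.1 p.2 := by
  unfold idx
  fun_prop

lemma measurable_ne (m : ℕ) : Measurable fun p : ℝ × (ℝ × ℝ) => ne b m p.1 p.2 := by
  unfold ne
  have h1 : Measurable fun p : ℝ × (ℝ × ℝ) => idx b m p.1 p.2.1 :=
    (measurable_idx_joint m).comp (measurable_fst.prodMk (measurable_fst.comp measurable_snd))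
  have h2 : Measurable fun p : ℝ × (ℝ × ℝ) => idx b m p.1 p.2.2 :=
    (measurable_idx_joint m).comp (measurable_fst.prodMk (measurable_snd.comp measurable_snd))
  exact Measurable.ite (measurableSet_eq_fun h1 h2) measurable_const measurable_const

lemma measurable_dd (m : ℕ) : Measurable fun p : ℝ × (ℝ × ℝ) => dd b m p.1 p.2 := by
  unfold dd
  have h1 : Measurable fun p : ℝ × (ℝ × ℝ) => idx b m p.1 p.2.1 :=
    (measurable_idx_joint m).comp (measurable_fst.prodMk (measurable_fst.comp measurable_snd))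
  have h2 : Measurable fun p : ℝ × (ℝ × ℝ) => idx b m p.1 p.2.2 :=
    (measurable_idx_joint m).comp (measurable_fst.prodMk (measurable_snd.comp measurable_snd))
  have h3 : Measurable fun i : ℤ => (i : ℝ) := Measurable.of_discrete
  exact ENNReal.measurable_ofReal.comp ((h3.comp h1).sub (h3.comp h2)).abs

/-! ### the sum over the levels -/

/-- potential -/
noncomputable def Phi (q t : ℝ) : ℝ := if t ≤ 1 then t ^ (1 - q) else 4 - 2 * t ^ (-q)

lemma Phi_nonneg {q : ℝ} (hq : 0 < q) {t : ℝ} (ht : 0 < t) : 0 ≤ Phi q t := by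
  unfold Phi
  split_ifs with h
  · positivity
  · have h1 : t ^ (-q) ≤ 1 :=
      Real.rpow_le_one_of_one_le_of_nonpos (not_le.1 h).le (by linarith)
    linarith

lemma Phi_le {q : ℝ} (hq1 : q < 1) {t : ℝ} (ht : 0 < t) : Phi q t ≤ 4 := by
  unfold Phi
  split_ifs with h
  · have h1 : t ^ (1 - q) ≤ 1 := Real.rpow_le_one ht.le h (by linarith)
    linarith
  · have h1 : 0 ≤ t ^ (-q) := by positivity
    linarith

lemma Phi_step {q : ℝ} (hq : 0 < q) (hq1 : q < 1) {B : ℝ} (hB : 1 ≤ B) (h1 : 2 ≤ B ^ (1 - q))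
    (h2 : 2 ≤ B ^ q) {t : ℝ} (ht : 0 < t) :
    t ^ (-q) * min 1 t ≤ Phi q (B * t) - Phi q t := by
  have hB0 : 0 < B := by linarith
  have hBq : B ^ (-q) ≤ 1 / 2 := by
    rw [Real.rpow_neg hB0.le, ← one_div]
    exact one_div_le_one_div_of_le (by norm_num) h2
  by_cases ht1 : t ≤ 1
  · have h3 : t ^ (-q) * min 1 t = t ^ (1 - q) := by
      rw [min_eq_right ht1]
      nth_rewrite 2 [← Real.rpow_one t]
      rw [← Real.rpow_add ht]
      congr 1
      ring
    rw [h3]
    have h4 : t ^ (1 - q) ≤ 1 := Real.rpow_le_one ht.le ht1 (by linarith)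
    have h5 : 0 ≤ t ^ (1 - q) := by positivity
    unfold Phi
    rw [if_pos ht1]
    split_ifs with h
    · rw [Real.mul_rpow hB0.le ht.le]
      nlinarith
    · have h6 : (B * t) ^ (-q) ≤ 1 :=
        Real.rpow_le_one_of_one_le_of_nonpos (not_le.1 h).le (by linarith)
      linarith
  · have ht1' := not_le.1 ht1
    rw [min_eq_left ht1'.le, mul_one]
    have h7 : ¬ B * t ≤ 1 := by
      rw [not_le]
      nlinarith
    unfold Phi
    rw [if_neg ht1, if_neg h7, Real.mul_rpow hB0.le ht.le]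
    have h8 : 0 < t ^ (-q) := by positivity
    nlinarith

lemma level_sum_aux {q : ℝ} (hq : 0 < q) (hq1 : q < 1) {B : ℝ} (hB : 1 ≤ B)
    (h1 : 2 ≤ B ^ (1 - q)) (h2 : 2 ≤ B ^ q) {δ : ℝ} (hδ : 0 < δ) (n : ℕ) :
    ∑ m ∈ Finset.range n, (B ^ m) ^ (-q) * min 1 (B ^ m * δ) ≤ 4 * δ ^ q := by
  have hB0 : 0 < B := by linarith
  have hstep : ∀ m, (B ^ m) ^ (-q) * min 1 (B ^ m * δ) ≤
      δ ^ q * (Phi q (B ^ (m + 1) * δ) - Phi q (B ^ m * δ)) := by
    intro m
    have ht : 0 < B ^ m * δ := by positivity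
    have h3 := Phi_step hq hq1 hB h1 h2 ht
    have h4 : (B ^ m) ^ (-q) = δ ^ q * (B ^ m * δ) ^ (-q) := by
      rw [Real.mul_rpow (by positivity) hδ.le, mul_comm ((B ^ m) ^ (-q)), ← mul_assoc,
        ← Real.rpow_add hδ]
      simp
    rw [h4, mul_assoc, pow_succ', mul_assoc]
    exact mul_le_mul_of_nonneg_left h3 (by positivity)
  refine (Finset.sum_le_sum fun m _ => hstep m).trans ?_
  rw [← Finset.mul_sum, Finset.sum_range_sub (fun m => Phi q (B ^ m * δ)), mul_comm]
  refine mul_le_mul_of_nonneg_right ?_ (by positivity)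
  have h5 := Phi_le hq1 (t := B ^ n * δ) (by positivity)
  have h6 := Phi_nonneg hq (t := B ^ 0 * δ) (by positivity)
  linarith

/-- **The sum over the levels.** -/
lemma level_sum {q : ℝ} (hq : 0 < q) (hq1 : q < 1) {B : ℝ} (hB : 1 ≤ B)
    (h1 : 2 ≤ B ^ (1 - q)) (h2 : 2 ≤ B ^ q) {δ : ℝ} (hδ : 0 ≤ δ) (n : ℕ) :
    ∑ m ∈ Finset.range n, (B ^ m) ^ (-q) * min 1 (B ^ m * δ) ≤ 4 * (min 1 δ) ^ q := by
  rcases hδ.eq_or_lt with h | h
  · rw [← h]
    simp [Real.zero_rpow hq.ne']
  · have h3 : ∀ m, min 1 (B ^ m * δ) = min 1 (B ^ m * min 1 δ) := by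
      intro m
      have h4 : (1 : ℝ) ≤ B ^ m := one_le_pow₀ hB
      rcases le_total δ 1 with h5 | h5
      · rw [min_eq_right h5]
      · rw [min_eq_left h5, mul_one, min_eq_left h4, min_eq_left]
        nlinarith
    simp_rw [h3]
    exact level_sum_aux hq hq1 hB h1 h2 (lt_min one_pos h) n

end Pool.Agent.K1H26.PC
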