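import Mathlib

/-!
# Elementary facts on `sinh` and `cosh`
-/

set_option autoImplicit false
set_option maxHeartbeats 4000000

namespace Pool.Agent.K1H26.PC

lemma cosh_le_exp_abs (x : ℝ) : Real.cosh x ≤ Real.exp |x| := by
  rw [← Real.cosh_abs, Real.cosh_eq]
  have := Real.exp_le_exp.2 (by linarith [abs_nonneg x] : -|x| ≤ |x|)
  linarith

lemma exp_abs_le (x : ℝ) : Real.exp |x| ≤ 2 * Real.cosh x := by
  rw [← Real.cosh_abs, Real.cosh_eq]
  have := Real.exp_pos (-|x|)
  linarith

lemma sinh_sub_sinh (x y : ℝ) :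
    Real.sinh y - Real.sinh x = 2 * Real.cosh ((x + y) / 2) * Real.sinh ((y - x) / 2) := by
  have h1 : Real.sinh y = Real.sinh ((x + y) / 2 + (y - x) / 2) := by
    congr 1
    ring
  have h2 : Real.sinh x = Real.sinh ((x + y) / 2 - (y - x) / 2) := by
    congr 1
    ring
  rw [h1, h2, Real.sinh_add, Real.sinh_sub]
  ring

lemma abs_sinh_le_cosh (x : ℝ) : |Real.sinh x| ≤ Real.cosh x := by
  rw [abs_le]
  constructor
  · have := Real.cosh_add_sinh x
    have h2 := Real.exp_pos x
    linarith
  · exact (Real.sinh_lt_cosh x).le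

lemma cosh_add_le (c h : ℝ) : Real.cosh (c + h) ≤ Real.cosh c * Real.exp |h| := by
  have h1 := abs_sinh_le_cosh c
  have h2 : Real.exp |h| = Real.cosh h + |Real.sinh h| := by
    rw [← Real.cosh_abs h, Real.abs_sinh, Real.cosh_add_sinh]
  rw [h2, Real.cosh_add]
  have h3 : Real.sinh c * Real.sinh h ≤ |Real.sinh c| * |Real.sinh h| := by
    rw [← abs_mul]
    exact le_abs_self _
  have h4 := abs_nonneg (Real.sinh h)
  nlinarith

/-- lower bound of the increments of `sinh` -/
lemma sinh_lower {x y : ℝ} (h : x ≤ y) :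
    (Real.cosh x ⊔ Real.cosh y) * min 1 (y - x) ≤ 2 * (Real.sinh y - Real.sinh x) := by
  rw [sinh_sub_sinh]
  have hh : 0 ≤ (y - x) / 2 := by linarith
  have h1 : Real.cosh x ≤ Real.cosh ((x + y) / 2) * Real.exp ((y - x) / 2) := by
    have := cosh_add_le ((x + y) / 2) (-((y - x) / 2))
    rw [abs_neg, abs_of_nonneg hh] at this
    rwa [show (x + y) / 2 + -((y - x) / 2) = x by ring] at this
  have h2 : Real.cosh y ≤ Real.cosh ((x + y) / 2) * Real.exp ((y - x) / 2) := by
    have := cosh_add_le ((x + y) / 2) ((y - x) / 2)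
    rw [abs_of_nonneg hh] at this
    rwa [show (x + y) / 2 + ((y - x) / 2) = y by ring] at this
  have h3 := sup_le h1 h2
  have h4 : 0 ≤ min 1 (y - x) := le_min zero_le_one (by linarith)
  refine (mul_le_mul_of_nonneg_right h3 h4).trans ?_
  have h5 : Real.exp ((y - x) / 2) * min 1 (y - x) ≤ 4 * Real.sinh ((y - x) / 2) := by
    rw [Real.sinh_eq]
    set s := (y - x) / 2 with hs
    have h6 : y - x = 2 * s := by rw [hs]; ring
    rw [h6]
    have h7 : Real.exp (-s) = Real.exp s * Real.exp (-(2 * s)) := by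
      rw [← Real.exp_add]
      congr 1
      ring
    rw [h7]
    have h8 : min 1 (2 * s) ≤ 2 * (1 - Real.exp (-(2 * s))) := by
      have h9 : Real.exp (-(2 * s)) ≤ 1 / (1 + 2 * s) := by
        rw [Real.exp_neg, ← one_div]
        refine one_div_le_one_div_of_le (by positivity) ?_
        have := Real.add_one_le_exp (2 * s)
        linarith
      have h10 : min 1 (2 * s) ≤ 2 * (1 - 1 / (1 + 2 * s)) := by
        have h11 : (0 : ℝ) < 1 + 2 * s := by positivity
        have h12 : 2 * (1 - 1 / (1 + 2 * s)) = 4 * s / (1 + 2 * s) := by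
          field_simp
          ring
        rw [h12, le_div_iff₀ h11]
        rcases le_total 1 (2 * s) with h13 | h13
        · rw [min_eq_left h13]
          linarith
        · rw [min_eq_right h13]
          nlinarith
      linarith
    have h14 := Real.exp_pos s
    nlinarith
  have h15 := Real.cosh_pos ((x + y) / 2)
  nlinarith

/-- upper bound of the increments of `sinh` -/
lemma sinh_upper {a x y : ℝ} (hax : a ≤ x) (hxy : x ≤ y) (hya : y ≤ a + 1) :
    Real.sinh y - Real.sinh x ≤ Real.exp 1 * Real.cosh a * (y - x) := by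
  have h1 : ∀ t ∈ Set.Icc a (a + 1), Real.cosh t ≤ Real.exp 1 * Real.cosh a := by
    intro t ht
    have h2 := cosh_add_le a (t - a)
    rw [show a + (t - a) = t by ring, abs_of_nonneg (by linarith [ht.1])] at h2
    refine h2.trans ?_
    rw [mul_comm]
    refine mul_le_mul_of_nonneg_right ?_ (Real.cosh_pos a).le
    exact Real.exp_le_exp.2 (by linarith [ht.2])
  have h2 := (convex_Icc a (a + 1)).image_sub_le_mul_sub_of_deriv_le
    (f := Real.sinh) Real.continuous_sinh.continuousOn
    Real.differentiable_sinh.differentiableOn (C := Real.exp 1 * Real.cosh a) (by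
      intro t ht
      rw [Real.deriv_sinh]
      exact h1 t (interior_subset ht)) x ⟨hax, hxy.trans hya⟩ y ⟨hax.trans hxy, hya⟩ hxy
  exact h2

end Pool.Agent.K1H26.PC
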