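import Mathlib
import Pool.Agent.K1H26.PC.Grid
import Pool.Agent.K1H26.PC.Hyp

/-!
# The quantile rule for powers in `[1/2, 1)`
-/

set_option autoImplicit false
set_option maxHeartbeats 4000000

open MeasureTheory Set ProbabilityTheory Filter
open scoped NNReal ENNReal Topology

namespace Pool.Agent.K1H26.PC

open Pool.Agent.R972.PC

lemma exp_one_lt : Real.exp 1 < 2.72 := by
  have := Real.exp_one_lt_d9
  linarith

lemma exp_neg_half_le : Real.exp (-(1 / 2 : ℝ)) ≤ 2 / 3 := by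
  rw [Real.exp_neg]
  have h := Real.add_one_le_exp (1 / 2 : ℝ)
  rw [inv_le_comm₀ (Real.exp_pos _) (by norm_num)]
  linarith

lemma top_real {q s t x y : ℝ} (hq : 1 / 2 ≤ q) (hq1 : q ≤ 1) (hst : s + 1 ≤ t) (hx : s ≤ x)
    (hx2 : x ≤ s + 1) (hy : t ≤ y) (hy2 : y ≤ t + 1) :
    |Real.sinh x - Real.sinh y| ^ q ≤ 17 * |Real.sinh (q * s) - Real.sinh (q * t)| := by
  have hq0 : 0 < q := by linarith
  have h1 : Real.sinh x ≤ Real.sinh y := Real.sinh_le_sinh.2 (by linarith)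
  have h2 : Real.sinh (q * s) ≤ Real.sinh (q * t) := Real.sinh_le_sinh.2 (by nlinarith)
  rw [abs_sub_comm, abs_of_nonneg (by linarith : 0 ≤ Real.sinh y - Real.sinh x),
    abs_sub_comm, abs_of_nonneg (by linarith : 0 ≤ Real.sinh (q * t) - Real.sinh (q * s))]
  have h3 : Real.sinh y - Real.sinh x ≤ Real.sinh (t + 1) - Real.sinh s := by
    have := Real.sinh_le_sinh.2 hy2
    have := Real.sinh_le_sinh.2 hx
    linarith
  set c := (s + t) / 2 with hc
  set h := (t - s) / 2 with hh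
  have hh2 : 1 / 2 ≤ h := by rw [hh]; linarith
  have h4 : Real.sinh (t + 1) - Real.sinh s ≤ Real.exp (|c| + h + 1) := by
    rw [sinh_sub_sinh]
    have h5 : Real.cosh ((s + (t + 1)) / 2) ≤ Real.exp (|c| + 1 / 2) := by
      refine (cosh_le_exp_abs _).trans ?_
      refine Real.exp_le_exp.2 ?_
      have h6 : (s + (t + 1)) / 2 = c + 1 / 2 := by rw [hc]; ring
      rw [h6]
      refine (abs_add_le _ _).trans ?_
      rw [abs_of_nonneg (by norm_num : (0 : ℝ) ≤ 1 / 2)]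
    have h6 : Real.sinh ((t + 1 - s) / 2) ≤ Real.exp (h + 1 / 2) / 2 := by
      have h7 : (t + 1 - s) / 2 = h + 1 / 2 := by rw [hh]; ring
      rw [h7, Real.sinh_eq]
      have := Real.exp_pos (-(h + 1 / 2))
      linarith
    have h8 : 0 ≤ Real.sinh ((t + 1 - s) / 2) := Real.sinh_nonneg_iff.2 (by linarith)
    have h9 : Real.exp (|c| + h + 1) = Real.exp (|c| + 1 / 2) * Real.exp (h + 1 / 2) := by
      rw [← Real.exp_add]
      congr 1
      ring
    rw [h9]
    have h10 := Real.exp_pos (|c| + 1 / 2)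
    have h11 := Real.cosh_pos ((s + (t + 1)) / 2)
    calc 2 * Real.cosh ((s + (t + 1)) / 2) * Real.sinh ((t + 1 - s) / 2)
        ≤ 2 * Real.exp (|c| + 1 / 2) * Real.sinh ((t + 1 - s) / 2) := by gcongr
      _ ≤ 2 * Real.exp (|c| + 1 / 2) * (Real.exp (h + 1 / 2) / 2) := by gcongr
      _ = Real.exp (|c| + 1 / 2) * Real.exp (h + 1 / 2) := by ring
  have h12 : (Real.sinh y - Real.sinh x) ^ q ≤ Real.exp 1 * Real.exp (q * (|c| + h)) := by
    refine (Real.rpow_le_rpow (by linarith) (h3.trans h4) hq0.le).trans ?_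
    rw [← Real.exp_mul, ← Real.exp_add]
    refine Real.exp_le_exp.2 ?_
    nlinarith [abs_nonneg c]
  have h13 : Real.exp (q * (|c| + h)) / 6 ≤ Real.sinh (q * t) - Real.sinh (q * s) := by
    rw [sinh_sub_sinh]
    have h14 : (q * s + q * t) / 2 = q * c := by rw [hc]; ring
    have h15 : (q * t - q * s) / 2 = q * h := by rw [hh]; ring
    rw [h14, h15]
    have h16 : Real.exp (q * |c|) ≤ 2 * Real.cosh (q * c) := by
      have := exp_abs_le (q * c)
      rwa [abs_mul, abs_of_pos hq0] at this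
    have h17 : Real.exp (q * h) / 6 ≤ Real.sinh (q * h) := by
      rw [Real.sinh_eq]
      have h18 : Real.exp (-(q * h)) = Real.exp (q * h) * Real.exp (-(2 * (q * h))) := by
        rw [← Real.exp_add]
        congr 1
        ring
      have h19 : Real.exp (-(2 * (q * h))) ≤ 2 / 3 := by
        refine (Real.exp_le_exp.2 ?_).trans exp_neg_half_le
        nlinarith
      have h20 := Real.exp_pos (q * h)
      rw [h18]
      nlinarith
    have h21 : Real.exp (q * (|c| + h)) = Real.exp (q * |c|) * Real.exp (q * h) := by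
      rw [← Real.exp_add]
      congr 1
      ring
    rw [h21]
    have h22 := Real.exp_pos (q * |c|)
    have h23 := Real.exp_pos (q * h)
    calc Real.exp (q * |c|) * Real.exp (q * h) / 6 = Real.exp (q * |c|) * (Real.exp (q * h) / 6) := by
          ring
      _ ≤ (2 * Real.cosh (q * c)) * (Real.exp (q * h) / 6) := by gcongr
      _ ≤ 2 * Real.cosh (q * c) * Real.sinh (q * h) := by
          have := Real.cosh_pos (q * c)
          gcongr
  have h24 := exp_one_lt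
  have h25 := Real.exp_pos (q * (|c| + h))
  nlinarith

lemma node_real {q a h x y : ℝ} {n : ℕ} (hq0 : 0 < q) (hq1 : q ≤ 1) (hn : 1 ≤ n) (hh : 0 ≤ h)
    (hx : a ≤ x) (hxy : x ≤ y) (hy : y ≤ a + 1) (hd : y - x ≤ 2 * n * h) :
    |Real.sinh x - Real.sinh y| ^ q ≤ (2 * Real.exp 1 * Real.cosh a * h) ^ q * n := by
  have h1 := sinh_upper hx hxy hy
  have h2 : Real.sinh x ≤ Real.sinh y := Real.sinh_le_sinh.2 hxy
  rw [abs_sub_comm, abs_of_nonneg (by linarith : 0 ≤ Real.sinh y - Real.sinh x)]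
  have hc := Real.cosh_pos a
  have he := Real.exp_pos 1
  have h3 : Real.sinh y - Real.sinh x ≤ (2 * Real.exp 1 * Real.cosh a * h) * n := by
    calc Real.sinh y - Real.sinh x ≤ Real.exp 1 * Real.cosh a * (y - x) := h1
      _ ≤ Real.exp 1 * Real.cosh a * (2 * n * h) := by gcongr
      _ = _ := by ring
  refine (Real.rpow_le_rpow (by linarith) h3 hq0.le).trans ?_
  rw [Real.mul_rpow (by positivity) (by positivity)]
  have hn1 : (1 : ℝ) ≤ n := by exact_mod_cast hn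
  have h4 : (n : ℝ) ^ q ≤ n := by
    calc (n : ℝ) ^ q ≤ (n : ℝ) ^ (1 : ℝ) := Real.rpow_le_rpow_of_exponent_le hn1 hq1
      _ = n := Real.rpow_one _
  have h5 : 0 ≤ (2 * Real.exp 1 * Real.cosh a * h) ^ q := by positivity
  gcongr

/-- potential of the top cells -/
noncomputable def phiq (b : ℕ) (q : ℝ) (θ : ℝ) (k : ℤ) : ℝ := Real.sinh (q * gp b 0 k θ)

/-- node weights -/
noncomputable def Wq (b : ℕ) (q : ℝ) (m : ℕ) (θ : ℝ) (i : ℤ) : ℝ≥0∞ :=
  ENNReal.ofReal ((2 * Real.exp 1 * Real.cosh (gp b m i θ) * ((b : ℝ) ^ (m + 1))⁻¹) ^ q)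

/-- size factor -/
noncomputable def Mq (q : ℝ) (z : ℝ × ℝ) : ℝ := Real.cosh z.1 ^ q + Real.cosh z.2 ^ q

/-- the total majorant -/
noncomputable def Fq (b : ℕ) (q : ℝ) (θ : ℝ) (z : ℝ × ℝ) : ℝ≥0∞ :=
  ENNReal.ofReal (Mq q z) * (93 * ne b 0 θ z +
    ∑' m, ENNReal.ofReal (15 * ((b : ℝ) ^ (m + 1)) ^ (-q)) *
      (min (ENNReal.ofReal b) (dd b (m + 1) θ z) + 2 * b * ne b m θ z))

variable {b : ℕ}

lemma gp_pos_diff (hb : 0 < b) (m : ℕ) (θ x : ℝ) :
    |gp b m (idx b m θ x) θ - x| ≤ 1 := by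
  have h := (idx_eq_iff hb m θ x _).1 rfl
  rw [gp_succ] at h
  have h1 : 1 / (b : ℝ) ^ m ≤ 1 := by
    rw [div_le_one (by positivity)]
    exact one_le_pow₀ (by exact_mod_cast hb)
  rw [abs_le]
  constructor <;> linarith [h.1, h.2]

lemma cosh_gp_le (hb : 0 < b) (m : ℕ) (θ x : ℝ) :
    Real.cosh (gp b m (idx b m θ x) θ) ≤ Real.exp 1 * Real.cosh x := by
  have h := cosh_add_le x (gp b m (idx b m θ x) θ - x)
  rw [show x + (gp b m (idx b m θ x) θ - x) = gp b m (idx b m θ x) θ by ring] at h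
  refine h.trans ?_
  rw [mul_comm]
  have := Real.cosh_pos x
  gcongr
  exact gp_pos_diff hb m θ x

lemma Wq_le (hb : 0 < b) {q : ℝ} (hq0 : 0 < q) (hq1 : q ≤ 1) (m : ℕ) (θ x : ℝ) :
    Wq b q m θ (idx b m θ x) ≤
      ENNReal.ofReal (15 * ((b : ℝ) ^ (m + 1)) ^ (-q)) * ENNReal.ofReal (Real.cosh x ^ q) := by
  unfold Wq
  have hc := Real.cosh_pos x
  have he := Real.exp_pos 1
  have hcg := Real.cosh_pos (gp b m (idx b m θ x) θ)
  rw [← ENNReal.ofReal_mul (by positivity)]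
  refine ENNReal.ofReal_le_ofReal ?_
  have h1 : 2 * Real.exp 1 * Real.cosh (gp b m (idx b m θ x) θ) * ((b : ℝ) ^ (m + 1))⁻¹ ≤
      (2 * Real.exp 1 * Real.exp 1) * Real.cosh x * ((b : ℝ) ^ (m + 1))⁻¹ := by
    have := cosh_gp_le hb m θ x
    calc 2 * Real.exp 1 * Real.cosh (gp b m (idx b m θ x) θ) * ((b : ℝ) ^ (m + 1))⁻¹
        ≤ 2 * Real.exp 1 * (Real.exp 1 * Real.cosh x) * ((b : ℝ) ^ (m + 1))⁻¹ := by gcongr
      _ = _ := by ring
  refine (Real.rpow_le_rpow (by positivity) h1 hq0.le).trans ?_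
  rw [Real.mul_rpow (by positivity) (by positivity), Real.mul_rpow (by positivity) hc.le]
  have h2 : (2 * Real.exp 1 * Real.exp 1) ^ q ≤ 15 := by
    have h3 : 1 ≤ 2 * Real.exp 1 * Real.exp 1 := by
      have := Real.add_one_le_exp (1 : ℝ)
      nlinarith
    calc (2 * Real.exp 1 * Real.exp 1) ^ q ≤ (2 * Real.exp 1 * Real.exp 1) ^ (1 : ℝ) :=
          Real.rpow_le_rpow_of_exponent_le h3 hq1
      _ = 2 * Real.exp 1 * Real.exp 1 := Real.rpow_one _
      _ ≤ 15 := by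
          have := exp_one_lt
          nlinarith
  have h4 : (((b : ℝ) ^ (m + 1))⁻¹) ^ q = ((b : ℝ) ^ (m + 1)) ^ (-q) := by
    rw [Real.inv_rpow (by positivity), Real.rpow_neg (by positivity)]
  rw [h4]
  have h5 : 0 ≤ Real.cosh x ^ q := by positivity
  have h6 : 0 ≤ ((b : ℝ) ^ (m + 1)) ^ (-q) := by positivity
  calc (2 * Real.exp 1 * Real.exp 1) ^ q * Real.cosh x ^ q * ((b : ℝ) ^ (m + 1)) ^ (-q)
      ≤ 15 * Real.cosh x ^ q * ((b : ℝ) ^ (m + 1)) ^ (-q) := by gcongr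
    _ = _ := by ring

lemma phiq_abs_le (hb : 0 < b) {q : ℝ} (hq0 : 0 < q) (hq1 : q ≤ 1) (θ x : ℝ) :
    |phiq b q θ (idx b 0 θ x)| ≤ 2 * Real.exp 1 * Real.cosh x ^ q := by
  unfold phiq
  refine (abs_sinh_le_cosh _).trans ?_
  have h1 := cosh_add_le (q * x) (q * (gp b 0 (idx b 0 θ x) θ - x))
  rw [show q * x + q * (gp b 0 (idx b 0 θ x) θ - x) = q * gp b 0 (idx b 0 θ x) θ by ring] at h1
  refine h1.trans ?_
  have h2 : Real.exp |q * (gp b 0 (idx b 0 θ x) θ - x)| ≤ Real.exp 1 := by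
    refine Real.exp_le_exp.2 ?_
    rw [abs_mul, abs_of_pos hq0]
    have := gp_pos_diff hb 0 θ x
    nlinarith [abs_nonneg (gp b 0 (idx b 0 θ x) θ - x)]
  have h3 : Real.cosh (q * x) ≤ 2 * Real.cosh x ^ q := by
    refine (cosh_le_exp_abs _).trans ?_
    rw [abs_mul, abs_of_pos hq0, mul_comm, Real.exp_mul]
    have hc := Real.cosh_pos x
    calc Real.exp |x| ^ q ≤ (2 * Real.cosh x) ^ q :=
          Real.rpow_le_rpow (Real.exp_pos _).le (exp_abs_le x) hq0.le
      _ = 2 ^ q * Real.cosh x ^ q := Real.mul_rpow (by norm_num) hc.le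
      _ ≤ 2 * Real.cosh x ^ q := by
          gcongr
          calc (2 : ℝ) ^ q ≤ 2 ^ (1 : ℝ) :=
                Real.rpow_le_rpow_of_exponent_le (by norm_num) hq1
            _ = 2 := Real.rpow_one _
  have hc := Real.cosh_pos x
  have he := Real.exp_pos 1
  calc Real.cosh (q * x) * Real.exp |q * (gp b 0 (idx b 0 θ x) θ - x)|
      ≤ (2 * Real.cosh x ^ q) * Real.exp 1 := by
        have := Real.cosh_pos (q * x)
        gcongr
    _ = _ := by ring

lemma Nx_le (hb : 0 < b) (m : ℕ) (θ : ℝ) (z : ℝ × ℝ) :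
    Nx b (Finset.Ioo 0 b) Finset.range b m θ z.1 z.2 ≤
      min (ENNReal.ofReal b) (dd b (m + 1) θ z) + 2 * b * ne b m θ z := by
  classical
  unfold Nx ne
  split_ifs with h
  · rw [mul_zero, add_zero]
    obtain ⟨i, hi⟩ : ∃ i, i = idx b m θ z.1 := ⟨_, rfl⟩
    rw [← hi]
    have hx := (idx_child hb m θ z.1 i).1 hi.symm
    have hy := (idx_child hb m θ z.2 i).1 (by rw [← h, hi])
    have hE : ∀ w : ℝ, b * i ≤ idx b (m + 1) θ w → ∀ j,
        (w ∈ Epart b m Finset.range θ i j ↔ idx b (m + 1) θ w < b * i + j) := by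
      intro w hw j
      unfold Epart
      simp only [mem_ofPred_eq, Finset.mem_range]
      constructor
      · rintro ⟨c, hc, h1⟩
        omega
      · intro h1
        refine ⟨(idx b (m + 1) θ w - b * i).toNat, by omega, by omega⟩
    have h1 : ∑ j ∈ Finset.Ioo 0 b, xorI (z.1 ∈ Epart b m Finset.range θ i j)
        (z.2 ∈ Epart b m Finset.range θ i j) =
        (((Finset.Ioo 0 b).filter fun j : ℕ =>
          ((idx b (m + 1) θ z.1 < b * i + j ∧ ¬ idx b (m + 1) θ z.2 < b * i + j) ∨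
          (idx b (m + 1) θ z.2 < b * i + j ∧ ¬ idx b (m + 1) θ z.1 < b * i + j))).card : ℝ≥0∞) := by
      rw [Finset.card_filter, Nat.cast_sum]
      refine Finset.sum_congr rfl fun j _ => ?_
      rw [hE _ hx.1, hE _ hy.1]
      unfold xorI
      push_cast
      split_ifs <;> simp
    rw [h1]
    refine le_min ?_ ?_
    · rw [ENNReal.ofReal_natCast]
      refine Nat.cast_le.2 ((Finset.card_filter_le _ _).trans ?_)
      simp
    · unfold dd
      have h2 : ((Finset.Ioo 0 b).filter fun j : ℕ =>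
          ((idx b (m + 1) θ z.1 < b * i + j ∧ ¬ idx b (m + 1) θ z.2 < b * i + j) ∨
          (idx b (m + 1) θ z.2 < b * i + j ∧ ¬ idx b (m + 1) θ z.1 < b * i + j))).card ≤
          (idx b (m + 1) θ z.1 - idx b (m + 1) θ z.2).natAbs := by
        have h3 : ((Finset.Ioo 0 b).filter fun j : ℕ =>
          ((idx b (m + 1) θ z.1 < b * i + j ∧ ¬ idx b (m + 1) θ z.2 < b * i + j) ∨
          (idx b (m + 1) θ z.2 < b * i + j ∧ ¬ idx b (m + 1) θ z.1 < b * i + j))) ⊆
          Finset.Ioc (min (idx b (m + 1) θ z.1 - b * i).toNat (idx b (m + 1) θ z.2 - b * i).toNat)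
            (max (idx b (m + 1) θ z.1 - b * i).toNat (idx b (m + 1) θ z.2 - b * i).toNat) := by
          intro j hj
          rw [Finset.mem_filter] at hj
          rw [Finset.mem_Ioc]
          omega
        refine (Finset.card_le_card h3).trans ?_
        rw [Nat.card_Ioc]
        omega
      refine (Nat.cast_le.2 h2).trans ?_
      rw [← ENNReal.ofReal_natCast]
      refine ENNReal.ofReal_le_ofReal ?_
      rw [Nat.cast_natAbs]
      push_cast
      exact le_rfl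
  · rw [mul_one]
    exact le_add_self

lemma overlap_q (b : ℕ) : Overlap b (Finset.Ioo 0 b) Finset.range b := by
  classical
  refine ⟨fun j hj => ?_, fun c _ => ?_⟩
  · rw [Finset.mem_Ioo] at hj
    exact Finset.range_mono hj.2.le
  · refine (Finset.card_filter_le _ _).trans ?_
    simp

lemma measurable_Fq (q : ℝ) : Measurable (fun p : ℝ × (ℝ × ℝ) => Fq b q p.1 p.2) := by
  unfold Fq Mq
  refine Measurable.mul ?_ ?_
  · refine ENNReal.measurable_ofReal.comp ?_
    exact ((Real.measurable_cosh.comp (measurable_fst.comp measurable_snd)).pow_const q).add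
      ((Real.measurable_cosh.comp (measurable_snd.comp measurable_snd)).pow_const q)
  · refine Measurable.add ?_ ?_
    · exact (measurable_ne 0).const_mul _
    · refine Measurable.tsum fun m => ?_
      refine Measurable.const_mul ?_ _
      exact (measurable_const.min (measurable_dd (m + 1))).add ((measurable_ne m).const_mul _)

lemma Mq_le {q : ℝ} (hq0 : 0 < q) (hq1 : q ≤ 1) (z : ℝ × ℝ) :
    Mq q z * (min 1 |z.1 - z.2|) ^ q ≤ 4 * |Real.sinh z.1 - Real.sinh z.2| ^ q := by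
  unfold Mq
  have hc1 := Real.cosh_pos z.1
  have hc2 := Real.cosh_pos z.2
  have hmin : 0 ≤ min 1 |z.1 - z.2| := le_min zero_le_one (abs_nonneg _)
  have h0 : (Real.cosh z.1 ⊔ Real.cosh z.2) * min 1 |z.1 - z.2| ≤
      2 * |Real.sinh z.1 - Real.sinh z.2| := by
    rcases le_total z.1 z.2 with h | h
    · have h1 := sinh_lower h
      rw [abs_sub_comm, abs_of_nonneg (by linarith : 0 ≤ z.2 - z.1), abs_sub_comm,
        abs_of_nonneg (by linarith [Real.sinh_le_sinh.2 h] : 0 ≤ Real.sinh z.2 - Real.sinh z.1)]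
      exact h1
    · have h1 := sinh_lower h
      rw [abs_of_nonneg (by linarith : 0 ≤ z.1 - z.2),
        abs_of_nonneg (by linarith [Real.sinh_le_sinh.2 h] : 0 ≤ Real.sinh z.1 - Real.sinh z.2),
        sup_comm]
      exact h1
  have h2 : ∀ c : ℝ, 0 < c → c ≤ Real.cosh z.1 ⊔ Real.cosh z.2 →
      c ^ q * (min 1 |z.1 - z.2|) ^ q ≤ 2 * |Real.sinh z.1 - Real.sinh z.2| ^ q := by
    intro c hc hc'
    rw [← Real.mul_rpow hc.le hmin]
    have h3 : c * min 1 |z.1 - z.2| ≤ 2 * |Real.sinh z.1 - Real.sinh z.2| :=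
      (mul_le_mul_of_nonneg_right hc' hmin).trans h0
    refine (Real.rpow_le_rpow (by positivity) h3 hq0.le).trans ?_
    rw [Real.mul_rpow (by norm_num) (abs_nonneg _)]
    gcongr
    calc (2 : ℝ) ^ q ≤ 2 ^ (1 : ℝ) := Real.rpow_le_rpow_of_exponent_le (by norm_num) hq1
      _ = 2 := Real.rpow_one _
  rw [add_mul]
  have h4 := h2 _ hc1 le_sup_left
  have h5 := h2 _ hc2 le_sup_right
  linarith

lemma measurable_idx_θ (m : ℕ) (x : ℝ) : Measurable fun θ => idx b m θ x := by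
  unfold idx
  fun_prop

lemma measurable_ne' (m : ℕ) (z : ℝ × ℝ) : Measurable fun θ => ne b m θ z := by
  unfold ne
  exact Measurable.ite (measurableSet_eq_fun (measurable_idx_θ m z.1) (measurable_idx_θ m z.2))
    measurable_const measurable_const

lemma measurable_dd' (m : ℕ) (z : ℝ × ℝ) : Measurable fun θ => dd b m θ z := by
  have h3 : Measurable fun i : ℤ => (i : ℝ) := Measurable.of_discrete
  have h4 : Measurable fun θ : ℝ => ((idx b m θ z.1 : ℤ) : ℝ) := h3.comp (measurable_idx_θ m z.1)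
  have h5 : Measurable fun θ : ℝ => ((idx b m θ z.2 : ℤ) : ℝ) := h3.comp (measurable_idx_θ m z.2)
  have h6 : Measurable fun θ : ℝ => |((idx b m θ z.1 : ℤ) : ℝ) - (idx b m θ z.2 : ℤ)| :=
    (h4.sub h5).abs
  exact ENNReal.measurable_ofReal.comp h6

/-- the level term -/
noncomputable def lt (b : ℕ) (q : ℝ) (m : ℕ) (θ : ℝ) (z : ℝ × ℝ) : ℝ≥0∞ :=
  ENNReal.ofReal (15 * ((b : ℝ) ^ (m + 1)) ^ (-q)) *
      (min (ENNReal.ofReal b) (dd b (m + 1) θ z) + 2 * b * ne b m θ z)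

lemma measurable_lt (q : ℝ) (m : ℕ) (z : ℝ × ℝ) : Measurable fun θ => lt b q m θ z := by
  unfold lt
  exact ((measurable_const.min (measurable_dd' (m + 1) z)).add
    ((measurable_ne' m z).const_mul _)).const_mul _

lemma lt_avg {q : ℝ} (hb : 1 < b) (z : ℝ × ℝ) (m : ℕ) :
    ∫⁻ θ, lt b q m θ z ∂leb ≤
      ENNReal.ofReal (45 * (b : ℝ) ^ (1 - q) * (((b : ℝ) ^ m) ^ (-q) *
        min 1 ((b : ℝ) ^ m * |z.1 - z.2|))) := by
  have hbR : (1 : ℝ) ≤ b := by exact_mod_cast hb.le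
  have hbR0 : (0 : ℝ) < b := by linarith
  unfold lt
  have hm1 : Measurable fun θ => min (ENNReal.ofReal b) (dd b (m + 1) θ z) :=
    measurable_const.min (measurable_dd' (m + 1) z)
  have hm2 : Measurable fun θ => 2 * (b : ℝ≥0∞) * ne b m θ z := (measurable_ne' m z).const_mul _
  have hm12 : Measurable fun θ => min (ENNReal.ofReal b) (dd b (m + 1) θ z) +
      2 * (b : ℝ≥0∞) * ne b m θ z := hm1.add hm2
  rw [lintegral_const_mul _ hm12, lintegral_add_left hm1,
    lintegral_const_mul _ (measurable_ne' m z)]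
  have h3 := avg_min_dd (b := b) (m + 1) z b
  have h4 := avg_ne (b := b) m z
  have h5 : (2 : ℝ≥0∞) * b = ENNReal.ofReal (2 * b) := by
    rw [ENNReal.ofReal_mul (by norm_num)]
    simp
  rw [h5]
  set δ := |z.1 - z.2| with hδ
  have hδ0 : 0 ≤ δ := abs_nonneg _
  have h6 : min (b : ℝ) ((b : ℝ) ^ (m + 1) * δ) = b * min 1 ((b : ℝ) ^ m * δ) := by
    rw [mul_min_of_nonneg _ _ hbR0.le, mul_one, pow_succ', mul_assoc]
  rw [h6] at h3
  have hmin0 : 0 ≤ min 1 ((b : ℝ) ^ m * δ) := le_min zero_le_one (by positivity)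
  calc ENNReal.ofReal (15 * ((b : ℝ) ^ (m + 1)) ^ (-q)) *
        (∫⁻ θ, min (ENNReal.ofReal b) (dd b (m + 1) θ z) ∂leb +
          ENNReal.ofReal (2 * b) * ∫⁻ θ, ne b m θ z ∂leb)
      ≤ ENNReal.ofReal (15 * ((b : ℝ) ^ (m + 1)) ^ (-q)) *
        (ENNReal.ofReal (b * min 1 ((b : ℝ) ^ m * δ)) +
          ENNReal.ofReal (2 * b) * ENNReal.ofReal (min 1 ((b : ℝ) ^ m * δ))) := by gcongr
    _ = ENNReal.ofReal (15 * ((b : ℝ) ^ (m + 1)) ^ (-q) *
        (b * min 1 ((b : ℝ) ^ m * δ) + 2 * b * min 1 ((b : ℝ) ^ m * δ))) := by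
        rw [← ENNReal.ofReal_mul (by positivity), ← ENNReal.ofReal_add (by positivity)
          (by positivity), ← ENNReal.ofReal_mul (by positivity)]
    _ = _ := by
        congr 1
        have h7 : ((b : ℝ) ^ (m + 1)) ^ (-q) = (b : ℝ) ^ (-q) * ((b : ℝ) ^ m) ^ (-q) := by
          rw [pow_succ', Real.mul_rpow hbR0.le (by positivity)]
        have h8 : (b : ℝ) ^ (1 - q) = b * (b : ℝ) ^ (-q) := by
          rw [sub_eq_add_neg, Real.rpow_add hbR0, Real.rpow_one]
        rw [h7, h8]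
        ring

lemma lt_tsum_avg {q : ℝ} (hq0 : 0 < q) (hq1 : q < 1) (hb : 1 < b)
    (h1 : 2 ≤ (b : ℝ) ^ (1 - q)) (h1' : (b : ℝ) ^ (1 - q) ≤ 4) (h2 : 2 ≤ (b : ℝ) ^ q)
    (z : ℝ × ℝ) :
    ∑' m, ∫⁻ θ, lt b q m θ z ∂leb ≤ ENNReal.ofReal (720 * (min 1 |z.1 - z.2|) ^ q) := by
  have hbR : (1 : ℝ) ≤ b := by exact_mod_cast hb.le
  refine (ENNReal.tsum_le_tsum fun m => lt_avg hb z m).trans ?_
  refine ENNReal.tsum_le_of_sum_range_le fun n => ?_
  set δ := |z.1 - z.2| with hδ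
  have hδ0 : 0 ≤ δ := abs_nonneg _
  rw [← ENNReal.ofReal_sum_of_nonneg]
  · refine ENNReal.ofReal_le_ofReal ?_
    rw [← Finset.mul_sum]
    have h9 := level_sum hq0 hq1 hbR h1 h2 hδ0 n
    have h10 : 0 ≤ (min 1 δ) ^ q := Real.rpow_nonneg (le_min zero_le_one hδ0) _
    have h11 : 0 ≤ (b : ℝ) ^ (1 - q) := by positivity
    calc 45 * (b : ℝ) ^ (1 - q) * ∑ m ∈ Finset.range n, ((b : ℝ) ^ m) ^ (-q) *
          min 1 ((b : ℝ) ^ m * δ)
        ≤ 45 * (b : ℝ) ^ (1 - q) * (4 * (min 1 δ) ^ q) := by gcongr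
      _ ≤ 45 * 4 * (4 * (min 1 δ) ^ q) := by gcongr
      _ = _ := by ring
  · intro m _
    have hmin0 : 0 ≤ min 1 ((b : ℝ) ^ m * δ) := le_min zero_le_one (by positivity)
    positivity

lemma ne0_avg {q : ℝ} (hq0 : 0 < q) (hq1 : q < 1) (z : ℝ × ℝ) :
    ∫⁻ θ, ne b 0 θ z ∂leb ≤ ENNReal.ofReal ((min 1 |z.1 - z.2|) ^ q) := by
  refine (avg_ne 0 z).trans (ENNReal.ofReal_le_ofReal ?_)
  rw [pow_zero, one_mul]
  have h12 : 0 ≤ min 1 |z.1 - z.2| := le_min zero_le_one (abs_nonneg _)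
  calc min 1 |z.1 - z.2| = (min 1 |z.1 - z.2|) ^ (1 : ℝ) := (Real.rpow_one _).symm
    _ ≤ (min 1 |z.1 - z.2|) ^ q :=
        Real.rpow_le_rpow_of_exponent_ge' h12 (min_le_left _ _) hq0.le hq1.le

lemma Fq_avg {q : ℝ} (hq0 : 0 < q) (hq1 : q < 1) (hb : 1 < b)
    (h1 : 2 ≤ (b : ℝ) ^ (1 - q)) (h1' : (b : ℝ) ^ (1 - q) ≤ 4) (h2 : 2 ≤ (b : ℝ) ^ q)
    (z : ℝ × ℝ) :
    ∫⁻ θ, Fq b q θ z ∂leb ≤
      ((3300 : ℝ≥0) : ℝ≥0∞) * ENNReal.ofReal (|Real.sinhHomeomorph z.1 -
        Real.sinhHomeomorph z.2| ^ q) := by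
  have h3 : ∀ θ, Fq b q θ z = ENNReal.ofReal (Mq q z) * (93 * ne b 0 θ z + ∑' m, lt b q m θ z) :=
    fun θ => rfl
  simp_rw [h3]
  have hm1 : Measurable fun θ => (93 : ℝ≥0∞) * ne b 0 θ z := (measurable_ne' 0 z).const_mul _
  have hm2 : Measurable fun θ => ∑' m, lt b q m θ z := Measurable.tsum fun m => measurable_lt q m z
  have hm12 : Measurable fun θ => (93 : ℝ≥0∞) * ne b 0 θ z + ∑' m, lt b q m θ z := hm1.add hm2
  rw [lintegral_const_mul _ hm12, lintegral_add_left hm1,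
    lintegral_const_mul _ (measurable_ne' 0 z),
    lintegral_tsum fun m => (measurable_lt q m z).aemeasurable]
  have hsum := lt_tsum_avg hq0 hq1 hb h1 h1' h2 z
  have hne0 := ne0_avg (b := b) hq0 hq1 z
  set δ := |z.1 - z.2| with hδ
  have hδ0 : 0 ≤ δ := abs_nonneg _
  have hMq0 : 0 ≤ Mq q z := by
    unfold Mq
    have hc1 := Real.cosh_pos z.1
    have hc2 := Real.cosh_pos z.2
    positivity
  have hmq : 0 ≤ (min 1 δ) ^ q := Real.rpow_nonneg (le_min zero_le_one hδ0) _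
  have h93 : (93 : ℝ≥0∞) = ENNReal.ofReal 93 := by simp
  have hfin : ENNReal.ofReal (Mq q z) * (ENNReal.ofReal 93 * ENNReal.ofReal ((min 1 δ) ^ q) +
          ENNReal.ofReal (720 * (min 1 δ) ^ q)) ≤
      ENNReal.ofReal (3300 * |Real.sinh z.1 - Real.sinh z.2| ^ q) := by
    rw [← ENNReal.ofReal_mul (by norm_num), ← ENNReal.ofReal_add (by positivity)
          (by positivity), ← ENNReal.ofReal_mul hMq0]
    refine ENNReal.ofReal_le_ofReal ?_
    have h13 := Mq_le hq0 hq1.le z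
    have h14 : 0 ≤ |Real.sinh z.1 - Real.sinh z.2| ^ q := by positivity
    rw [← hδ] at h13
    nlinarith
  have hK : ((3300 : ℝ≥0) : ℝ≥0∞) * ENNReal.ofReal (|Real.sinhHomeomorph z.1 -
        Real.sinhHomeomorph z.2| ^ q) =
      ENNReal.ofReal (3300 * |Real.sinh z.1 - Real.sinh z.2| ^ q) := by
    rw [ENNReal.ofReal_mul (by norm_num)]
    congr 1
    simp
  rw [hK]
  refine le_trans ?_ hfin
  rw [h93]
  gcongr

/-- **The parameters for `q ∈ [1/2, 1)`.** -/
theorem good_q {q : ℝ} (hq : 1 / 2 ≤ q) (hq1 : q < 1) (hb : 1 < b)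
    (h1 : 2 ≤ (b : ℝ) ^ (1 - q)) (h1' : (b : ℝ) ^ (1 - q) ≤ 4) (h2 : 2 ≤ (b : ℝ) ^ q) :
    Good b (Finset.Ioo 0 b) Finset.range κq b q Real.sinhHomeomorph (phiq b q) (Wq b q) 17
      (Fq b q) 3300 := by
  have hq0 : 0 < q := by linarith
  have hb0 : 0 < b := by omega
  refine ⟨hq0, hb, overlap_q b, ?_, ?_, ?_, ?_, measurable_Fq q,
    fun z => Fq_avg hq0 hq1 hb h1 h1' h2 z⟩
  · intro θ k l hkl
    unfold phiq
    refine Real.sinh_le_sinh.2 ?_
    have := gp_le hb0 0 hkl θ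
    nlinarith
  · intro θ k l x y hkl hx hx2 hy hy2
    have h17 : (17 : ℝ≥0∞) = ENNReal.ofReal 17 := by simp
    rw [h17, ← ENNReal.ofReal_mul (by norm_num)]
    refine ENNReal.ofReal_le_ofReal ?_
    change |Real.sinh x - Real.sinh y| ^ q ≤ _
    rw [gp_succ, pow_zero, div_one] at hx2 hy2
    unfold phiq
    rcases lt_or_gt_of_ne hkl with h | h
    · refine top_real hq hq1.le ?_ hx hx2 hy hy2
      rw [gp_zero, gp_zero]
      have : (k : ℝ) + 1 ≤ l := by exact_mod_cast h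
      linarith
    · rw [abs_sub_comm (Real.sinh x), abs_sub_comm (Real.sinh (q * gp b 0 k θ))]
      refine top_real hq hq1.le ?_ hy hy2 hx hx2
      rw [gp_zero, gp_zero]
      have : (l : ℝ) + 1 ≤ k := by exact_mod_cast h
      linarith
  · intro θ m i c c' x y hc hc' hcc hx hx2 hy hy2
    have key : ∀ (c c' : ℕ) (x y : ℝ), c < c' → c' < b →
        gp b (m + 1) (b * i + c) θ ≤ x → x ≤ gp b (m + 1) (b * i + c + 1) θ →
        gp b (m + 1) (b * i + c') θ ≤ y → y ≤ gp b (m + 1) (b * i + c' + 1) θ →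
        |Real.sinh x - Real.sinh y| ^ q ≤
          (2 * Real.exp 1 * Real.cosh (gp b m i θ) * ((b : ℝ) ^ (m + 1))⁻¹) ^ q *
            ((c' - c : ℕ) : ℝ) := by
      intro c c' x y hcc hc' hx hx2 hy hy2
      have h3 : gp b (m + 1) (b * i + c + 1) θ ≤ gp b (m + 1) (b * i + c') θ :=
        gp_le hb0 _ (by omega) θ
      have h4 : gp b (m + 1) (b * i + c' + 1) θ ≤ gp b m (i + 1) θ := by
        rw [← gp_child hb0 m (i + 1)]
        refine gp_le hb0 _ ?_ θ
        rw [mul_add, mul_one]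
        omega
      have h5 : gp b m i θ ≤ gp b (m + 1) (b * i + c) θ := by
        rw [← gp_child hb0 m i]
        exact gp_le hb0 _ (by omega) θ
      have h6 : gp b m (i + 1) θ ≤ gp b m i θ + 1 := by
        rw [gp_succ]
        have : 1 / (b : ℝ) ^ m ≤ 1 := by
          rw [div_le_one (by positivity)]
          exact one_le_pow₀ (by exact_mod_cast hb0)
        linarith
      refine node_real hq0 hq1.le (by omega) (by positivity) (h5.trans hx)
        (hx2.trans (h3.trans hy)) (hy2.trans (h4.trans h6)) ?_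
      have h7 : gp b (m + 1) (b * i + c' + 1) θ - gp b (m + 1) (b * i + c) θ =
          ((c' : ℝ) + 1 - c) * ((b : ℝ) ^ (m + 1))⁻¹ := by
        unfold gp
        push_cast
        ring
      have h8 : ((c' - c : ℕ) : ℝ) = (c' : ℝ) - c := by
        rw [Nat.cast_sub hcc.le]
      have h9 : (c : ℝ) + 1 ≤ c' := by exact_mod_cast hcc
      have h10 : 0 ≤ ((b : ℝ) ^ (m + 1))⁻¹ := by positivity
      rw [h8]
      nlinarith
    unfold Wq κq
    rw [← ENNReal.ofReal_mul (by positivity)]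
    refine ENNReal.ofReal_le_ofReal ?_
    change |Real.sinh x - Real.sinh y| ^ q ≤ _
    rcases lt_or_gt_of_ne hcc with h | h
    · have := key c c' x y h hc' hx hx2 hy hy2
      rw [Nat.cast_sub h.le] at this
      rw [abs_sub_comm (c : ℝ), abs_of_nonneg (by
        have : (c : ℝ) ≤ c' := by exact_mod_cast h.le
        linarith : (0 : ℝ) ≤ c' - c)]
      exact this
    · have := key c' c y x h hc hy hy2 hx hx2
      rw [Nat.cast_sub h.le] at this
      rw [abs_of_nonneg (by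
        have : (c' : ℝ) ≤ c := by exact_mod_cast h.le
        linarith : (0 : ℝ) ≤ c - c'), abs_sub_comm (Real.sinh x)]
      exact this
  · intro θ z
    unfold Fq
    have hMq : ENNReal.ofReal (Mq q z) =
        ENNReal.ofReal (Real.cosh z.1 ^ q) + ENNReal.ofReal (Real.cosh z.2 ^ q) := by
      unfold Mq
      have hc1 := Real.cosh_pos z.1
      have hc2 := Real.cosh_pos z.2
      rw [ENNReal.ofReal_add (by positivity) (by positivity)]
    rw [mul_add, ← ENNReal.tsum_mul_left]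
    refine add_le_add ?_ (ENNReal.tsum_le_tsum fun m => ?_)
    · unfold ne
      split_ifs with h
      · rw [h]
        simp
      · rw [mul_one]
        have h93 : (93 : ℝ≥0∞) = ENNReal.ofReal 93 := by simp
        have h17 : (17 : ℝ≥0∞) = ENNReal.ofReal 17 := by simp
        have hM0 : 0 ≤ Mq q z := by
          unfold Mq
          have hc1 := Real.cosh_pos z.1
          have hc2 := Real.cosh_pos z.2
          positivity
        rw [h93, h17, ← ENNReal.ofReal_mul (by norm_num), ← ENNReal.ofReal_mul hM0]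
        refine ENNReal.ofReal_le_ofReal ?_
        have h3 := phiq_abs_le hb0 hq0 hq1.le θ z.1
        have h4 := phiq_abs_le hb0 hq0 hq1.le θ z.2
        have h5 := abs_sub (phiq b q θ (idx b 0 θ z.1)) (phiq b q θ (idx b 0 θ z.2))
        have h6 := exp_one_lt
        have h7 : 17 * |phiq b q θ (idx b 0 θ z.1) - phiq b q θ (idx b 0 θ z.2)| ≤
            17 * (2 * Real.exp 1 * Mq q z) := by
          unfold Mq
          linarith
        refine h7.trans ?_
        nlinarith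
    · have h3 := Wq_le hb0 hq0 hq1.le m θ z.1
      have h4 := Wq_le hb0 hq0 hq1.le m θ z.2
      have h5 := Nx_le hb0 m θ z
      calc (Wq b q m θ (idx b m θ z.1) + Wq b q m θ (idx b m θ z.2)) *
            Nx b (Finset.Ioo 0 b) Finset.range b m θ z.1 z.2
          ≤ (ENNReal.ofReal (15 * ((b : ℝ) ^ (m + 1)) ^ (-q)) * ENNReal.ofReal (Real.cosh z.1 ^ q) +
            ENNReal.ofReal (15 * ((b : ℝ) ^ (m + 1)) ^ (-q)) * ENNReal.ofReal (Real.cosh z.2 ^ q)) *
            (min (ENNReal.ofReal b) (dd b (m + 1) θ z) + 2 * b * ne b m θ z) := by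
            gcongr
        _ = _ := by
            rw [hMq, ← mul_add]
            ring

/-- existence of the base -/
lemma exists_base {q : ℝ} (hq : 1 / 2 ≤ q) (hq1 : q < 1) :
    ∃ b : ℕ, 1 < b ∧ 2 ≤ (b : ℝ) ^ (1 - q) ∧ (b : ℝ) ^ (1 - q) ≤ 4 ∧ 2 ≤ (b : ℝ) ^ q := by
  have h0 : 0 < 1 - q := by linarith
  set B : ℝ := (2 : ℝ) ^ (1 / (1 - q)) with hB
  have hB2 : 2 ≤ B := by
    rw [hB]
    calc (2 : ℝ) = 2 ^ (1 : ℝ) := (Real.rpow_one _).symm
      _ ≤ 2 ^ (1 / (1 - q)) := by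
          refine Real.rpow_le_rpow_of_exponent_le (by norm_num) ?_
          rw [le_div_iff₀ h0]
          linarith
  have hBq : B ^ (1 - q) = 2 := by
    rw [hB, ← Real.rpow_mul (by norm_num), one_div_mul_cancel h0.ne', Real.rpow_one]
  have hc1 : B ≤ (⌈B⌉₊ : ℝ) := Nat.le_ceil B
  have hc2 : (⌈B⌉₊ : ℝ) ≤ 2 * B := by
    have := Nat.ceil_lt_add_one (by linarith : 0 ≤ B)
    linarith
  have hceil0 : (0 : ℝ) ≤ (⌈B⌉₊ : ℝ) := Nat.cast_nonneg _
  refine ⟨⌈B⌉₊, ?_, ?_, ?_, ?_⟩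
  · have : (1 : ℝ) < (⌈B⌉₊ : ℝ) := by linarith
    exact_mod_cast this
  · rw [← hBq]
    exact Real.rpow_le_rpow (by linarith) hc1 h0.le
  · refine (Real.rpow_le_rpow hceil0 hc2 h0.le).trans ?_
    rw [Real.mul_rpow (by norm_num) (by linarith), hBq]
    have : (2 : ℝ) ^ (1 - q) ≤ 2 := by
      calc (2 : ℝ) ^ (1 - q) ≤ 2 ^ (1 : ℝ) :=
            Real.rpow_le_rpow_of_exponent_le (by norm_num) (by linarith)
        _ = 2 := Real.rpow_one _
    linarith
  · calc (2 : ℝ) = B ^ (1 - q) := hBq.symm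
      _ ≤ (⌈B⌉₊ : ℝ) ^ (1 - q) := Real.rpow_le_rpow (by linarith) hc1 h0.le
      _ ≤ (⌈B⌉₊ : ℝ) ^ q := by
          refine Real.rpow_le_rpow_of_exponent_le ?_ (by linarith)
          linarith

/-- **A uniform bound for the optimal pairwise coupling ratio, `q ∈ [1/2, 1)`.** -/
theorem optRatio_quant {q : ℝ} (hq : 1 / 2 ≤ q) (hq1 : q < 1) : optRatio q ≤ 3300 := by
  obtain ⟨b, hb, h1, h1', h2⟩ := exists_base hq hq1
  have h := optRatio_le (good_q hq hq1 hb h1 h1' h2) (qRule (by omega)) (by norm_num)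
  exact_mod_cast h

end Pool.Agent.K1H26.PC
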